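import Mathlib
import Pool.Agent.TH705.SM.Corr
import Pool.Agent.TH705.SM.Torus

set_option autoImplicit false

/-!
# Smooth functions between the indicator functions of two arcs
-/

namespace Run7.h608.SM

open Real MeasureTheory Set Function
open Pool.Agent.TH705.SM (sT_deriv_cont)

/-- test functions on the circle -/
structure Tst (H H' : ℝ → ℝ) : Prop where
  der : ∀ x, HasDerivAt H (H' x) x
  cont : Continuous H'
  per : Periodic H 1
  per' : Periodic H' 1
  nn : ∀ x, 0 ≤ H x
  le : ∀ x, H x ≤ 1
  tv : ∫ x in (0:ℝ)..1, |H' x| ≤ 2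

theorem tst_one : Tst (fun _ => 1) (fun _ => 0) where
  der := fun x => hasDerivAt_const x 1
  cont := continuous_const
  per := fun _ => rfl
  per' := fun _ => rfl
  nn := fun _ => zero_le_one
  le := fun _ => le_rfl
  tv := by simp

theorem tst_zero : Tst (fun _ => 0) (fun _ => 0) where
  der := fun x => hasDerivAt_const x 0
  cont := continuous_const
  per := fun _ => rfl
  per' := fun _ => rfl
  nn := fun _ => le_rfl
  le := fun _ => zero_le_one
  tv := by simp

theorem sT'_nonneg (w : ℝ) : 0 ≤ deriv smoothTransition w :=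
  smoothTransition.monotone.deriv_nonneg

/-- a smooth bump around `c`: equal to one where `cos 2π(x-c) ≥ k1`, zero where `≤ k0` -/
noncomputable def bp (c k0 k1 x : ℝ) : ℝ := smoothTransition ((cos (2 * π * (x - c)) - k0) / (k1 - k0))

noncomputable def bp' (c k0 k1 x : ℝ) : ℝ :=
  deriv smoothTransition ((cos (2 * π * (x - c)) - k0) / (k1 - k0)) *
    (-(sin (2 * π * (x - c)) * (2 * π)) / (k1 - k0))

theorem bp_der (c k0 k1 x : ℝ) : HasDerivAt (bp c k0 k1) (bp' c k0 k1 x) x := by
  have h1 : HasDerivAt (fun x => 2 * π * (x - c)) (2 * π) x := by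
    simpa using ((hasDerivAt_id x).sub_const c).const_mul (2 * π)
  have h2 : HasDerivAt (fun x => (cos (2 * π * (x - c)) - k0) / (k1 - k0))
      (-(sin (2 * π * (x - c)) * (2 * π)) / (k1 - k0)) x := by
    have := (h1.cos.sub_const k0).div_const (k1 - k0)
    rwa [neg_mul] at this
  have h3 : HasDerivAt smoothTransition (deriv smoothTransition ((cos (2 * π * (x - c)) - k0) / (k1 - k0)))
      ((cos (2 * π * (x - c)) - k0) / (k1 - k0)) :=
    ((smoothTransition.contDiff (n := 1)).differentiable (by norm_num) _).hasDerivAt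
  exact h3.comp x h2

theorem bp'_cont (c k0 k1 : ℝ) : Continuous (bp' c k0 k1) := by
  unfold bp'
  have := sT_deriv_cont
  fun_prop

theorem per_aux (c x : ℝ) : 2 * π * (x + 1 - c) = 2 * π * (x - c) + 2 * π := by ring

theorem bp_per (c k0 k1 : ℝ) : Periodic (bp c k0 k1) 1 := by
  intro x
  unfold bp
  rw [per_aux, cos_add_two_pi]

theorem bp'_per (c k0 k1 : ℝ) : Periodic (bp' c k0 k1) 1 := by
  intro x
  unfold bp'
  rw [per_aux, cos_add_two_pi, sin_add_two_pi]

theorem bp_tv {c k0 k1 : ℝ} (hk : k0 < k1) : ∫ x in (0:ℝ)..1, |bp' c k0 k1 x| ≤ 2 := by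
  have hpa : Periodic (fun x => |bp' c k0 k1 x|) 1 := fun x => by
    show |bp' c k0 k1 (x + 1)| = |bp' c k0 k1 x|
    rw [bp'_per c k0 k1 x]
  have h0 : ∫ x in (0:ℝ)..1, |bp' c k0 k1 x| = ∫ x in c..(c + 1), |bp' c k0 k1 x| := by
    have := hpa.intervalIntegral_add_eq 0 c
    rwa [zero_add] at this
  have hc := bp'_cont c k0 k1
  have hi : ∀ u v : ℝ, IntervalIntegrable (fun x => |bp' c k0 k1 x|) volume u v := fun u v =>
    hc.abs.intervalIntegrable u v
  rw [h0, ← intervalIntegral.integral_add_adjacent_intervals (hi c (c + 1 / 2)) (hi (c + 1 / 2) (c + 1))]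
  have hd : 0 < k1 - k0 := by linarith
  have e1 : ∫ x in c..(c + 1 / 2), |bp' c k0 k1 x| = ∫ x in c..(c + 1 / 2), -bp' c k0 k1 x := by
    apply intervalIntegral.integral_congr
    intro x hx
    rw [uIcc_of_le (by linarith)] at hx
    have hs : 0 ≤ sin (2 * π * (x - c)) := by
      apply sin_nonneg_of_nonneg_of_le_pi
      · have := hx.1
        have := pi_pos
        apply mul_nonneg (by positivity)
        linarith
      · have h2 := hx.2
        have := pi_pos
        nlinarith
    show |bp' c k0 k1 x| = -bp' c k0 k1 x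
    apply abs_of_nonpos
    unfold bp'
    apply mul_nonpos_of_nonneg_of_nonpos (sT'_nonneg _)
    apply div_nonpos_of_nonpos_of_nonneg _ hd.le
    have := pi_pos
    have : 0 ≤ sin (2 * π * (x - c)) * (2 * π) := by positivity
    linarith
  have e2 : ∫ x in (c + 1 / 2)..(c + 1), |bp' c k0 k1 x| = ∫ x in (c + 1 / 2)..(c + 1), bp' c k0 k1 x := by
    apply intervalIntegral.integral_congr
    intro x hx
    rw [uIcc_of_le (by linarith)] at hx
    have hs : sin (2 * π * (x - c)) ≤ 0 := by
      have e : 2 * π * (x - c) = (2 * π * (x - c) - π) + π := by ring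
      rw [e, sin_add_pi]
      have : 0 ≤ sin (2 * π * (x - c) - π) := by
        apply sin_nonneg_of_nonneg_of_le_pi
        · have := hx.1
          have := pi_pos
          nlinarith
        · have h2 := hx.2
          have := pi_pos
          nlinarith
      linarith
    show |bp' c k0 k1 x| = bp' c k0 k1 x
    apply abs_of_nonneg
    unfold bp'
    apply mul_nonneg (sT'_nonneg _)
    apply div_nonneg _ hd.le
    have := pi_pos
    nlinarith
  have f1 : ∫ x in c..(c + 1 / 2), -bp' c k0 k1 x = bp c k0 k1 c - bp c k0 k1 (c + 1 / 2) := by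
    rw [intervalIntegral.integral_neg, intervalIntegral.integral_eq_sub_of_hasDerivAt
      (fun x _ => bp_der c k0 k1 x) (hc.intervalIntegrable _ _)]
    ring
  have f2 : ∫ x in (c + 1 / 2)..(c + 1), bp' c k0 k1 x = bp c k0 k1 (c + 1) - bp c k0 k1 (c + 1 / 2) :=
    intervalIntegral.integral_eq_sub_of_hasDerivAt (fun x _ => bp_der c k0 k1 x)
      (hc.intervalIntegrable _ _)
  rw [e1, e2, f1, f2]
  have g1 : bp c k0 k1 c ≤ 1 := smoothTransition.le_one _
  have g2 : bp c k0 k1 (c + 1) ≤ 1 := smoothTransition.le_one _
  have g3 : 0 ≤ bp c k0 k1 (c + 1 / 2) := smoothTransition.nonneg _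
  linarith

theorem bp_tst {c k0 k1 : ℝ} (hk : k0 < k1) : Tst (bp c k0 k1) (bp' c k0 k1) where
  der := bp_der c k0 k1
  cont := bp'_cont c k0 k1
  per := bp_per c k0 k1
  per' := bp'_per c k0 k1
  nn := fun _ => smoothTransition.nonneg _
  le := fun _ => smoothTransition.le_one _
  tv := bp_tv hk

/-- the indicator function of `[0,s)`, on `[0,1)` -/
noncomputable def ind (s x : ℝ) : ℝ := if x < s then 1 else 0

theorem cos_le_of {r θ : ℝ} (hr : 0 ≤ r) (h1 : r ≤ |θ|) (h2 : |θ| ≤ π) : cos θ ≤ cos r := by
  rw [← cos_abs θ]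
  exact cos_le_cos_of_nonneg_of_le_pi hr h2 h1

theorem cos_ge_of {r θ : ℝ} (hr : r ≤ π) (h1 : |θ| ≤ r) : cos r ≤ cos θ := by
  rw [← cos_abs θ]
  exact cos_le_cos_of_nonneg_of_le_pi (abs_nonneg _) hr h1

/-- upper bracket -/
theorem upper {s δ : ℝ} (hs0 : 0 ≤ s) (hs1 : s ≤ 1) (hδ : 0 < δ) :
    ∃ H H' : ℝ → ℝ, Tst H H' ∧ (∀ x ∈ Ico (0:ℝ) 1, ind s x ≤ H x) ∧
      ∫ x in (0:ℝ)..1, H x ≤ s + 2 * δ := by
  have hπ := pi_pos
  by_cases h : 1 ≤ s + 2 * δ
  · refine ⟨fun _ => 1, fun _ => 0, tst_one, ?_, ?_⟩
    · intro x _
      unfold ind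
      split_ifs <;> norm_num
    · simpa using h
  · push Not at h
    set k1 := cos (π * s) with hk1
    set k0 := cos (π * (s + 2 * δ)) with hk0
    have hk : k0 < k1 := cos_lt_cos_of_nonneg_of_le_pi (by positivity) (by nlinarith) (by nlinarith)
    have hd : 0 < k1 - k0 := by linarith
    refine ⟨bp (s / 2) k0 k1, bp' (s / 2) k0 k1, bp_tst hk, ?_, ?_⟩
    · intro x hx
      unfold ind
      split_ifs with hxs
      · unfold bp
        rw [smoothTransition.one_of_one_le]
        rw [one_le_div hd]
        have : k1 ≤ cos (2 * π * (x - s / 2)) := by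
          apply cos_ge_of (by nlinarith)
          rw [abs_le]
          constructor <;> nlinarith [hx.1]
        linarith
      · exact smoothTransition.nonneg _
    · -- the integral
      have hp := bp_per (s / 2) k0 k1
      have hcb : Continuous (bp (s / 2) k0 k1) :=
        continuous_iff_continuousAt.2 fun x => (bp_der _ _ _ x).continuousAt
      have h0 : ∫ x in (0:ℝ)..1, bp (s / 2) k0 k1 x = ∫ x in (-δ)..(-δ + 1), bp (s / 2) k0 k1 x := by
        have := hp.intervalIntegral_add_eq 0 (-δ)
        rwa [zero_add] at this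
      have hi : ∀ u v : ℝ, IntervalIntegrable (bp (s / 2) k0 k1) volume u v := fun u v =>
        hcb.intervalIntegrable u v
      rw [h0, ← intervalIntegral.integral_add_adjacent_intervals (hi (-δ) (s + δ)) (hi (s + δ) (-δ + 1))]
      have e1 : ∫ x in (-δ)..(s + δ), bp (s / 2) k0 k1 x ≤ s + 2 * δ := by
        have := intervalIntegral.integral_mono_on (by linarith : -δ ≤ s + δ) (hi (-δ) (s + δ))
          (intervalIntegrable_const (c := (1:ℝ))) (fun x _ => smoothTransition.le_one _)
        refine this.trans (le_of_eq ?_)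
        rw [intervalIntegral.integral_const]
        simp
        ring
      have e2 : ∫ x in (s + δ)..(-δ + 1), bp (s / 2) k0 k1 x = 0 := by
        have : ∫ x in (s + δ)..(-δ + 1), bp (s / 2) k0 k1 x = ∫ x in (s + δ)..(-δ + 1), (0:ℝ) := by
          apply intervalIntegral.integral_congr
          intro x hx
          rw [uIcc_of_le (by linarith)] at hx
          show bp (s / 2) k0 k1 x = 0
          unfold bp
          apply smoothTransition.zero_of_nonpos
          apply div_nonpos_of_nonpos_of_nonneg _ hd.le
          have : cos (2 * π * (x - s / 2)) ≤ k0 := by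
            by_cases hx2 : x - s / 2 ≤ 1 / 2
            · apply cos_le_of (by positivity)
              · rw [abs_of_nonneg (by nlinarith [hx.1])]
                nlinarith [hx.1]
              · rw [abs_of_nonneg (by nlinarith [hx.1])]
                nlinarith
            · push Not at hx2
              have e : cos (2 * π * (x - s / 2)) = cos (2 * π * (x - s / 2) - 2 * π) := by
                rw [cos_sub_two_pi]
              rw [e]
              apply cos_le_of (by positivity)
              · rw [abs_of_nonpos (by nlinarith [hx.2])]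
                nlinarith [hx.2]
              · rw [abs_of_nonpos (by nlinarith [hx.2])]
                nlinarith
          linarith
        rw [this]
        simp
      linarith

/-- lower bracket -/
theorem lower {s δ : ℝ} (hs0 : 0 ≤ s) (hs1 : s ≤ 1) (hδ : 0 < δ) :
    ∃ H H' : ℝ → ℝ, Tst H H' ∧ (∀ x ∈ Ico (0:ℝ) 1, H x ≤ ind s x) ∧
      s - 2 * δ ≤ ∫ x in (0:ℝ)..1, H x := by
  have hπ := pi_pos
  by_cases h : s ≤ 2 * δ
  · refine ⟨fun _ => 0, fun _ => 0, tst_zero, ?_, ?_⟩
    · intro x _
      unfold ind
      split_ifs <;> norm_num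
    · simpa using h
  · push Not at h
    set k0 := cos (π * s) with hk0
    set k1 := cos (π * (s - 2 * δ)) with hk1
    have hk : k0 < k1 := cos_lt_cos_of_nonneg_of_le_pi (by nlinarith) (by nlinarith) (by nlinarith)
    have hd : 0 < k1 - k0 := by linarith
    refine ⟨bp (s / 2) k0 k1, bp' (s / 2) k0 k1, bp_tst hk, ?_, ?_⟩
    · intro x hx
      unfold ind
      split_ifs with hxs
      · exact smoothTransition.le_one _
      · push Not at hxs
        unfold bp
        rw [smoothTransition.zero_of_nonpos]
        apply div_nonpos_of_nonpos_of_nonneg _ hd.le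
        have : cos (2 * π * (x - s / 2)) ≤ k0 := by
          by_cases hx2 : x - s / 2 ≤ 1 / 2
          · apply cos_le_of (by positivity)
            · rw [abs_of_nonneg (by nlinarith)]
              nlinarith
            · rw [abs_of_nonneg (by nlinarith)]
              nlinarith
          · push Not at hx2
            have e : cos (2 * π * (x - s / 2)) = cos (2 * π * (x - s / 2) - 2 * π) := by
              rw [cos_sub_two_pi]
            rw [e]
            apply cos_le_of (by positivity)
            · rw [abs_of_nonpos (by nlinarith [hx.2])]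
              nlinarith [hx.2]
            · rw [abs_of_nonpos (by nlinarith [hx.2])]
              nlinarith
        linarith
    · have hcb : Continuous (bp (s / 2) k0 k1) :=
        continuous_iff_continuousAt.2 fun x => (bp_der _ _ _ x).continuousAt
      have hi : ∀ u v : ℝ, IntervalIntegrable (bp (s / 2) k0 k1) volume u v := fun u v =>
        hcb.intervalIntegrable u v
      rw [← intervalIntegral.integral_add_adjacent_intervals (hi 0 δ) (hi δ 1),
        ← intervalIntegral.integral_add_adjacent_intervals (hi δ (s - δ)) (hi (s - δ) 1)]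
      have e1 : 0 ≤ ∫ x in (0:ℝ)..δ, bp (s / 2) k0 k1 x :=
        intervalIntegral.integral_nonneg hδ.le fun x _ => smoothTransition.nonneg _
      have e3 : 0 ≤ ∫ x in (s - δ)..1, bp (s / 2) k0 k1 x :=
        intervalIntegral.integral_nonneg (by linarith) fun x _ => smoothTransition.nonneg _
      have e2 : ∫ x in δ..(s - δ), bp (s / 2) k0 k1 x = s - 2 * δ := by
        have : ∫ x in δ..(s - δ), bp (s / 2) k0 k1 x = ∫ x in δ..(s - δ), (1:ℝ) := by
          apply intervalIntegral.integral_congr
          intro x hx
          rw [uIcc_of_le (by linarith)] at hx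
          show bp (s / 2) k0 k1 x = 1
          unfold bp
          apply smoothTransition.one_of_one_le
          rw [one_le_div hd]
          have : k1 ≤ cos (2 * π * (x - s / 2)) := by
            apply cos_ge_of (by nlinarith)
            rw [abs_le]
            constructor <;> nlinarith [hx.1, hx.2]
          linarith
        rw [this, intervalIntegral.integral_const]
        simp
        ring
      linarith

end Run7.h608.SM
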