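import Mathlib
import Pool.Agent.Run7.h608.SM.Brk

set_option autoImplicit false

/-!
# Decay of correlations for smoothed boxes
-/

namespace Run7.h608.SM

open Real MeasureTheory Set Function
open Pool.Agent.TH705.SM (T2 S KK l0 corr int_T2 integrable_cont lift_cont S_cont S_mp iter_mp l0_ge KK_one vol_T2)

/-- a smoothed box -/
structure Bx where
  U : ℝ → ℝ
  U' : ℝ → ℝ
  V : ℝ → ℝ
  V' : ℝ → ℝ
  hU : Tst U U'
  hV : Tst V V'

namespace Bx

variable (b : Bx)

noncomputable def ub : ℝ := ∫ x in (0:ℝ)..1, b.U x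
noncomputable def vb : ℝ := ∫ x in (0:ℝ)..1, b.V x
/-- the mean -/
noncomputable def M : ℝ := b.ub * b.vb
/-- the function on the torus -/
noncomputable def phi (p : T2) : ℝ := b.hU.per.lift p.1 * b.hV.per.lift p.2
/-- with mean zero -/
noncomputable def psi (p : T2) : ℝ := b.phi p - b.M

end Bx

theorem Tst.ct {H H' : ℝ → ℝ} (h : Tst H H') : Continuous H :=
  continuous_iff_continuousAt.2 fun t => (h.der t).continuousAt

theorem Tst.lc {H H' : ℝ → ℝ} (h : Tst H H') : Continuous h.per.lift := lift_cont h.per h.ct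

theorem Tst.l_mem {H H' : ℝ → ℝ} (h : Tst H H') (z : UnitAddCircle) :
    0 ≤ h.per.lift z ∧ h.per.lift z ≤ 1 := by
  induction z using QuotientAddGroup.induction_on with
  | H x => exact ⟨h.nn x, h.le x⟩

theorem Tst.l_abs {H H' : ℝ → ℝ} (h : Tst H H') (z : UnitAddCircle) : |h.per.lift z| ≤ 1 := by
  have := h.l_mem z
  rw [abs_of_nonneg this.1]
  exact this.2

theorem Tst.int_mem {H H' : ℝ → ℝ} (h : Tst H H') :
    0 ≤ ∫ x in (0:ℝ)..1, H x ∧ ∫ x in (0:ℝ)..1, H x ≤ 1 := by
  constructor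
  · exact intervalIntegral.integral_nonneg zero_le_one fun x _ => h.nn x
  · have := intervalIntegral.integral_mono_on (zero_le_one (α := ℝ)) (h.ct.intervalIntegrable 0 1)
      (intervalIntegrable_const (μ := volume) (c := (1:ℝ))) (fun x _ => h.le x)
    simpa using this

theorem iadd {f g : T2 → ℝ} (hf : Continuous f) (hg : Continuous g) :
    ∫ p, (f p + g p) = (∫ p, f p) + ∫ p, g p := integral_add (integrable_cont hf) (integrable_cont hg)

theorem iadd3 {f g h : T2 → ℝ} (hf : Continuous f) (hg : Continuous g) (hh : Continuous h) :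
    ∫ p, (f p + g p + h p) = (∫ p, f p) + (∫ p, g p) + ∫ p, h p := by
  have k : Continuous fun p => f p + g p := hf.add hg
  rw [iadd k hh, iadd hf hg]

theorem isub {f g : T2 → ℝ} (hf : Continuous f) (hg : Continuous g) :
    ∫ p, (f p - g p) = (∫ p, f p) - ∫ p, g p := integral_sub (integrable_cont hf) (integrable_cont hg)

theorem Tst.circ {H H' : ℝ → ℝ} (h : Tst H H') :
    ∫ z : UnitAddCircle, h.per.lift z = ∫ x in (0:ℝ)..1, H x := by
  have := UnitAddCircle.intervalIntegral_preimage 0 h.per.lift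
  rw [zero_add] at this
  rw [← this]
  apply intervalIntegral.integral_congr
  intro x _
  rfl

theorem phi_cont (b : Bx) : Continuous b.phi := by
  unfold Bx.phi
  exact (b.hU.lc.comp continuous_fst).mul (b.hV.lc.comp continuous_snd)

theorem phi_mem (b : Bx) (p : T2) : 0 ≤ b.phi p ∧ b.phi p ≤ 1 := by
  have h1 := b.hU.l_mem p.1
  have h2 := b.hV.l_mem p.2
  unfold Bx.phi
  exact ⟨mul_nonneg h1.1 h2.1, mul_le_one₀ h1.2 h2.1 h2.2⟩

theorem M_mem (b : Bx) : 0 ≤ b.M ∧ b.M ≤ 1 := by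
  have h1 := b.hU.int_mem
  have h2 := b.hV.int_mem
  exact ⟨mul_nonneg h1.1 h2.1, mul_le_one₀ h1.2 h2.1 h2.2⟩

theorem psi_abs (b : Bx) (p : T2) : |b.psi p| ≤ 1 := by
  have h1 := phi_mem b p
  have h2 := M_mem b
  unfold Bx.psi
  rw [abs_le]
  constructor <;> linarith [h1.1, h1.2, h2.1, h2.2]

theorem psi_cont (b : Bx) : Continuous b.psi := (phi_cont b).sub continuous_const

theorem int_phi (b : Bx) : ∫ p : T2, b.phi p = b.M := by
  rw [int_T2 b.phi (integrable_cont (phi_cont b))]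
  have : ∀ s : ℝ, ∫ t in (0:ℝ)..1, b.phi ((t : UnitAddCircle), (s : UnitAddCircle)) = b.ub * b.V s := by
    intro s
    show ∫ t in (0:ℝ)..1, b.U t * b.V s = _
    rw [intervalIntegral.integral_mul_const]
    rfl
  simp_rw [this]
  rw [intervalIntegral.integral_const_mul]
  rfl

theorem int_comp (a : ℝ) (k : ℕ) {F : T2 → ℝ} (hF : Continuous F) :
    ∫ p : T2, F ((S a)^[k] p) = ∫ p : T2, F p := by
  have h2 : ∫ q, F q ∂(Measure.map ((S a)^[k]) volume) = ∫ p : T2, F ((S a)^[k] p) :=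
    integral_map (iter_mp a k).measurable.aemeasurable hF.aestronglyMeasurable
  rw [(iter_mp a k).map_eq] at h2
  exact h2.symm

/-- the constant -/
noncomputable def C0 : ℝ := 208 * KK * π ^ 2 + 16

theorem C0_pos : 0 < C0 := by
  unfold C0
  have := KK_one
  positivity

theorem snd_iter (a : ℝ) (k : ℕ) (p : T2) : ((S a)^[k + 1] p).2 = ((S a)^[k] p).1 := by
  rw [iterate_succ_apply']
  rfl

theorem corr1 {a l : ℝ} (hl : l0 ≤ l) (hla : l ≤ |a|) {m : ℕ} (hm : 1 ≤ m)
    {G G' K K' : ℝ → ℝ} (hG : Tst G G') (hK : Tst K K') (b : Bx) :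
    |∫ p : T2, (hG.per.lift (((S a)^[m + 1] p).1) - ∫ x in (0:ℝ)..1, G x) *
      hK.per.lift (((S a)^[m + 1] p).2) * b.phi p| ≤ C0 / l + 2 * m * (l / |a|) := by
  have hl1 : 0 < l := by have := l0_ge; linarith
  have h := corr (a := a) (l := l) hl hla hm hG.lc b.hU.lc hG.l_abs b.hU.l_abs
    hK.der hK.cont hK.per hK.per' (fun x => by rw [abs_of_nonneg (hK.nn x)]; exact hK.le x)
    b.hV.der b.hV.cont b.hV.per b.hV.per' (fun x => by rw [abs_of_nonneg (b.hV.nn x)]; exact b.hV.le x)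
  rw [hG.circ] at h
  refine h.trans ?_
  have h1 := hK.tv
  have h2 := b.hV.tv
  have h3 : 4 / l * ((∫ x in (0:ℝ)..1, |K' x|) + ∫ x in (0:ℝ)..1, |b.V' x|) ≤ 4 / l * 4 := by
    apply mul_le_mul_of_nonneg_left _ (by positivity)
    linarith
  have h4 : C0 / l = 208 * KK * π ^ 2 / l + 4 / l * 4 := by
    unfold C0
    field_simp
    ring
  linarith

/-- **decay of correlations of smoothed boxes** -/
theorem corr2 {a l : ℝ} (hl : l0 ≤ l) (hla : l ≤ |a|) {k : ℕ} (hk : 3 ≤ k) (b b2 : Bx) :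
    |∫ p : T2, b.psi ((S a)^[k] p) * b2.psi p| ≤ 2 * (C0 / l + 2 * k * (l / |a|)) := by
  obtain ⟨j, rfl⟩ : ∃ j, k = j + 3 := ⟨k - 3, by omega⟩
  have hl1 : 0 < l := by have := l0_ge; linarith
  have ha : 0 < |a| := by linarith
  have hit := (S_cont a).iterate (j + 3)
  have c1 : Continuous fun p : T2 => b.phi ((S a)^[j + 3] p) := (phi_cont b).comp hit
  have c2 := phi_cont b2
  have i1 : Integrable fun p : T2 => b.phi ((S a)^[j + 3] p) * b2.phi p := integrable_cont (c1.mul c2)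
  -- first form
  have e1 : ∫ p : T2, b.psi ((S a)^[j + 3] p) * b2.psi p =
      (∫ p : T2, b.phi ((S a)^[j + 3] p) * b2.phi p) - b.M * b2.M := by
    have : ∀ p : T2, b.psi ((S a)^[j + 3] p) * b2.psi p = b.phi ((S a)^[j + 3] p) * b2.phi p -
        (b2.M * b.phi ((S a)^[j + 3] p) + b.M * b2.phi p - b.M * b2.M) := by
      intro p
      unfold Bx.psi
      ring
    simp_rw [this]
    have k2 : Continuous fun p : T2 => b2.M * b.phi ((S a)^[j + 3] p) := continuous_const.mul c1
    have k3 : Continuous fun p : T2 => b.M * b2.phi p := continuous_const.mul c2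
    have k4 : Continuous fun p : T2 => b2.M * b.phi ((S a)^[j + 3] p) + b.M * b2.phi p := k2.add k3
    have k5 : Continuous fun p : T2 => b2.M * b.phi ((S a)^[j + 3] p) + b.M * b2.phi p - b.M * b2.M :=
      k4.sub continuous_const
    have k1 : Continuous fun p : T2 => b.phi ((S a)^[j + 3] p) * b2.phi p := c1.mul c2
    rw [isub k1 k5, isub k4 continuous_const, iadd k2 k3, integral_const_mul, integral_const_mul,
      int_comp a (j + 3) (phi_cont b), int_phi, int_phi, integral_const]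
    simp
    ring
  -- telescoping
  set A : ℝ := ∫ p : T2, (b.hU.per.lift (((S a)^[(j + 2) + 1] p).1) - ∫ x in (0:ℝ)..1, b.U x) *
      b.hV.per.lift (((S a)^[(j + 2) + 1] p).2) * b2.phi p with hA
  set B : ℝ := ∫ p : T2, (b.hV.per.lift (((S a)^[(j + 1) + 1] p).1) - ∫ x in (0:ℝ)..1, b.V x) *
      tst_one.per.lift (((S a)^[(j + 1) + 1] p).2) * b2.phi p with hB
  have hA1 : |A| ≤ C0 / l + 2 * ((j + 2 : ℕ) : ℝ) * (l / |a|) := corr1 hl hla (by omega) b.hU b.hV b2
  have hB1 : |B| ≤ C0 / l + 2 * ((j + 1 : ℕ) : ℝ) * (l / |a|) := corr1 hl hla (by omega) b.hV tst_one b2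
  have e2 : (∫ p : T2, b.phi ((S a)^[j + 3] p) * b2.phi p) = A + b.ub * B + b.M * b2.M := by
    have hone : ∀ z : UnitAddCircle, tst_one.per.lift z = 1 := by
      intro z
      induction z using QuotientAddGroup.induction_on with
      | H x => rfl
    have hpt : ∀ p : T2, b.phi ((S a)^[j + 3] p) * b2.phi p =
        (b.hU.per.lift (((S a)^[(j + 2) + 1] p).1) - ∫ x in (0:ℝ)..1, b.U x) *
          b.hV.per.lift (((S a)^[(j + 2) + 1] p).2) * b2.phi p +
        b.ub * ((b.hV.per.lift (((S a)^[(j + 1) + 1] p).1) - ∫ x in (0:ℝ)..1, b.V x) *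
          tst_one.per.lift (((S a)^[(j + 1) + 1] p).2) * b2.phi p) + b.M * b2.phi p := by
      intro p
      rw [hone]
      have hs : ((S a)^[j + 3] p).2 = ((S a)^[(j + 1) + 1] p).1 := snd_iter a (j + 2) p
      show b.hU.per.lift (((S a)^[j + 3] p).1) * b.hV.per.lift (((S a)^[j + 3] p).2) * b2.phi p =
        (b.hU.per.lift (((S a)^[j + 3] p).1) - b.ub) * b.hV.per.lift (((S a)^[j + 3] p).2) * b2.phi p +
        b.ub * ((b.hV.per.lift (((S a)^[(j + 1) + 1] p).1) - b.vb) * 1 * b2.phi p) +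
        b.ub * b.vb * b2.phi p
      rw [hs]
      ring
    simp_rw [hpt]
    have k1 : Continuous fun p : T2 => (b.hU.per.lift (((S a)^[(j + 2) + 1] p).1) - ∫ x in (0:ℝ)..1, b.U x) *
          b.hV.per.lift (((S a)^[(j + 2) + 1] p).2) * b2.phi p :=
      (((b.hU.lc.comp (continuous_fst.comp ((S_cont a).iterate _))).sub continuous_const).mul
        (b.hV.lc.comp (continuous_snd.comp ((S_cont a).iterate _)))).mul c2
    have k2 : Continuous fun p : T2 => b.ub * ((b.hV.per.lift (((S a)^[(j + 1) + 1] p).1) - ∫ x in (0:ℝ)..1, b.V x) *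
          tst_one.per.lift (((S a)^[(j + 1) + 1] p).2) * b2.phi p) :=
      continuous_const.mul ((((b.hV.lc.comp (continuous_fst.comp ((S_cont a).iterate _))).sub
        continuous_const).mul (tst_one.lc.comp (continuous_snd.comp ((S_cont a).iterate _)))).mul c2)
    have k3 : Continuous fun p : T2 => b.M * b2.phi p := continuous_const.mul c2
    rw [iadd3 k1 k2 k3, integral_const_mul, integral_const_mul, int_phi]
  rw [e1, e2]
  have hu : 0 ≤ b.ub ∧ b.ub ≤ 1 := b.hU.int_mem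
  have hu' : |b.ub| ≤ 1 := by
    rw [abs_of_nonneg hu.1]
    exact hu.2
  have e3 : A + b.ub * B + b.M * b2.M - b.M * b2.M = A + b.ub * B := by ring
  rw [e3]
  have h5 : |A + b.ub * B| ≤ |A| + |B| := by
    refine (abs_add_le _ _).trans ?_
    rw [abs_mul]
    have := mul_le_mul_of_nonneg_right hu' (abs_nonneg B)
    linarith
  have hla0 : 0 ≤ l / |a| := by positivity
  push_cast at hA1 hB1 ⊢
  have h6 : 2 * ((j:ℝ) + 2) * (l / |a|) ≤ 2 * ((j:ℝ) + 3) * (l / |a|) := by nlinarith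
  have h7 : 2 * ((j:ℝ) + 1) * (l / |a|) ≤ 2 * ((j:ℝ) + 3) * (l / |a|) := by nlinarith
  linarith

end Run7.h608.SM
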