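import Mathlib
import Pool.Agent.Run7.h608.SM.Cor

set_option autoImplicit false

/-!
# Mean square of weighted ergodic averages
-/

namespace Run7.h608.SM

open Real MeasureTheory Set Function
open Pool.Agent.TH705.SM (T2 S KK l0 integrable_cont S_cont S_mp iter_mp l0_ge KK_one)

theorem norm_sq_sum (w : ℕ → ℂ) (x : ℕ → ℝ) (n : ℕ) :
    ‖∑ j ∈ Finset.range n, w j * (x j : ℂ)‖ ^ 2 =
      ∑ i ∈ Finset.range n, ∑ j ∈ Finset.range n,
        ((w i).re * (w j).re + (w i).im * (w j).im) * (x i * x j) := by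
  rw [Complex.sq_norm, Complex.normSq_apply, Complex.re_sum, Complex.im_sum, Finset.sum_mul_sum,
    Finset.sum_mul_sum, ← Finset.sum_add_distrib]
  apply Finset.sum_congr rfl
  intro i _
  rw [← Finset.sum_add_distrib]
  apply Finset.sum_congr rfl
  intro j _
  simp
  ring

theorem coef_le {u v : ℂ} (hu : ‖u‖ = 1) (hv : ‖v‖ = 1) : |u.re * v.re + u.im * v.im| ≤ 1 := by
  have h : u.re * v.re + u.im * v.im = (u * (starRingEnd ℂ) v).re := by
    simp [Complex.mul_re]
  rw [h]
  refine (Complex.abs_re_le_norm _).trans ?_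
  rw [norm_mul, RCLike.norm_conj, hu, hv, mul_one]

/-- the correlations -/
noncomputable def cc (a : ℝ) (q : ℕ) (b : Bx) (i j : ℕ) : ℝ :=
  ∫ p : T2, b.psi ((S a)^[q * i] p) * b.psi ((S a)^[q * j] p)

theorem psi_it_cont (a : ℝ) (b : Bx) (k : ℕ) : Continuous fun p : T2 => b.psi ((S a)^[k] p) :=
  (psi_cont b).comp ((S_cont a).iterate k)

theorem cc_abs (a : ℝ) (q : ℕ) (b : Bx) (i j : ℕ) : |cc a q b i j| ≤ 1 := by
  unfold cc
  have := norm_integral_le_of_norm_le_const (μ := (volume : Measure T2))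
    (f := fun p : T2 => b.psi ((S a)^[q * i] p) * b.psi ((S a)^[q * j] p)) (C := 1)
    (Filter.Eventually.of_forall fun p => by
      rw [norm_mul, norm_eq_abs, norm_eq_abs]
      exact mul_le_one₀ (psi_abs b _) (abs_nonneg _) (psi_abs b _))
  simpa using this

theorem cc_symm (a : ℝ) (q : ℕ) (b : Bx) (i j : ℕ) : cc a q b i j = cc a q b j i := by
  unfold cc
  apply integral_congr_ae
  exact Filter.Eventually.of_forall fun p => mul_comm _ _

theorem cc_shift (a : ℝ) (q : ℕ) (b : Bx) (i k : ℕ) :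
    cc a q b i (i + k) = ∫ p : T2, b.psi ((S a)^[q * k] p) * b.psi p := by
  unfold cc
  have h := int_comp a (q * i) (F := fun p : T2 => b.psi p * b.psi ((S a)^[q * k] p))
    ((psi_cont b).mul (psi_it_cont a b _))
  have e : ∀ p : T2, b.psi ((S a)^[q * i] p) * b.psi ((S a)^[q * (i + k)] p) =
      b.psi ((S a)^[q * i] p) * b.psi ((S a)^[q * k] ((S a)^[q * i] p)) := by
    intro p
    rw [← iterate_add_apply]
    congr 3
    ring
  simp_rw [e]
  rw [h]
  apply integral_congr_ae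
  exact Filter.Eventually.of_forall fun p => mul_comm _ _

theorem cc_far {a l : ℝ} (hl : l0 ≤ l) (hla : l ≤ |a|) {q n : ℕ} (hq : 1 ≤ q) (b : Bx) {i j : ℕ}
    (hi : i < n) (hj : j < n) (hij : i + 3 ≤ j ∨ j + 3 ≤ i) :
    |cc a q b i j| ≤ 2 * (C0 / l + 2 * (q * n) * (l / |a|)) := by
  have hl1 : 0 < l := by have := l0_ge; linarith
  have ha : 0 < |a| := by linarith
  have key : ∀ i j : ℕ, i < n → j < n → i + 3 ≤ j →
      |cc a q b i j| ≤ 2 * (C0 / l + 2 * (q * n) * (l / |a|)) := by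
    intro i j hi hj hij
    obtain ⟨k, rfl⟩ : ∃ k, j = i + k := ⟨j - i, by omega⟩
    rw [cc_shift]
    have hk : 3 ≤ q * k := by nlinarith
    refine (corr2 hl hla hk b b).trans ?_
    have h1 : ((q * k : ℕ) : ℝ) ≤ q * n := by
      have : q * k ≤ q * n := Nat.mul_le_mul_left q (by omega)
      exact_mod_cast this
    have h2 : 0 ≤ l / |a| := by positivity
    have h3 := mul_le_mul_of_nonneg_right h1 h2
    linarith
  rcases hij with h | h
  · exact key i j hi hj h
  · rw [cc_symm]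
    exact key j i hj hi h

theorem near_card (i n : ℕ) :
    ((Finset.range n).filter fun j => ¬ (i + 3 ≤ j ∨ j + 3 ≤ i)).card ≤ 5 := by
  have : ((Finset.range n).filter fun j => ¬ (i + 3 ≤ j ∨ j + 3 ≤ i)) ⊆ Finset.Icc (i - 2) (i + 2) := by
    intro j hj
    rw [Finset.mem_filter] at hj
    rw [Finset.mem_Icc]
    omega
  refine (Finset.card_le_card this).trans ?_
  rw [Nat.card_Icc]
  omega

theorem mean_sq {a l : ℝ} (hl : l0 ≤ l) (hla : l ≤ |a|) {q : ℕ} (hq : 1 ≤ q) (b : Bx) (n : ℕ)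
    {w : ℕ → ℂ} (hw : ∀ j, ‖w j‖ = 1) :
    ∫ p : T2, ‖∑ j ∈ Finset.range n, w j * (b.psi ((S a)^[q * j] p) : ℂ)‖ ^ 2 ≤
      5 * n + n * n * (2 * (C0 / l + 2 * (q * n) * (l / |a|))) := by
  have hl1 : 0 < l := by have := l0_ge; linarith
  have ha : 0 < |a| := by linarith
  set E : ℝ := 2 * (C0 / l + 2 * (q * n) * (l / |a|)) with hE
  have hE0 : 0 ≤ E := by
    have := C0_pos
    positivity
  simp_rw [norm_sq_sum]
  have hc : ∀ i j : ℕ, Continuous fun p : T2 =>
      ((w i).re * (w j).re + (w i).im * (w j).im) *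
        (b.psi ((S a)^[q * i] p) * b.psi ((S a)^[q * j] p)) := fun i j =>
    continuous_const.mul ((psi_it_cont a b _).mul (psi_it_cont a b _))
  rw [integral_finsetSum _ fun i _ => integrable_finsetSum _ fun j _ => integrable_cont (hc i j)]
  have h1 : ∀ i ∈ Finset.range n, ∫ p : T2, ∑ j ∈ Finset.range n,
      ((w i).re * (w j).re + (w i).im * (w j).im) *
        (b.psi ((S a)^[q * i] p) * b.psi ((S a)^[q * j] p)) ≤ 5 + n * E := by
    intro i hi
    rw [integral_finsetSum _ fun j _ => integrable_cont (hc i j)]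
    have h2 : ∀ j ∈ Finset.range n, ∫ p : T2, ((w i).re * (w j).re + (w i).im * (w j).im) *
        (b.psi ((S a)^[q * i] p) * b.psi ((S a)^[q * j] p)) ≤
        (if ¬ (i + 3 ≤ j ∨ j + 3 ≤ i) then 1 else 0) + E := by
      intro j hj
      rw [integral_const_mul]
      have h3 : ((w i).re * (w j).re + (w i).im * (w j).im) *
          ∫ p : T2, b.psi ((S a)^[q * i] p) * b.psi ((S a)^[q * j] p) ≤ |cc a q b i j| := by
        refine (le_abs_self _).trans ?_
        rw [abs_mul]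
        have := mul_le_mul_of_nonneg_right (coef_le (hw i) (hw j)) (abs_nonneg (cc a q b i j))
        rw [one_mul] at this
        exact this
      refine h3.trans ?_
      by_cases hij : i + 3 ≤ j ∨ j + 3 ≤ i
      · rw [if_neg (not_not.2 hij), zero_add]
        exact cc_far hl hla hq b (Finset.mem_range.1 hi) (Finset.mem_range.1 hj) hij
      · rw [if_pos hij]
        have := cc_abs a q b i j
        linarith
    refine (Finset.sum_le_sum h2).trans ?_
    rw [Finset.sum_add_distrib, Finset.sum_const, Finset.card_range, nsmul_eq_mul,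
      ← Finset.sum_filter]
    rw [Finset.sum_const, nsmul_eq_mul, mul_one]
    have : (((Finset.range n).filter fun j => ¬ (i + 3 ≤ j ∨ j + 3 ≤ i)).card : ℝ) ≤ 5 := by
      exact_mod_cast near_card i n
    linarith
  refine (Finset.sum_le_sum h1).trans (le_of_eq ?_)
  rw [Finset.sum_const, Finset.card_range, nsmul_eq_mul]
  ring

theorem mean_sq_triv (a : ℝ) (q : ℕ) (b : Bx) (n : ℕ) {w : ℕ → ℂ} (hw : ∀ j, ‖w j‖ = 1) (p : T2) :
    ‖∑ j ∈ Finset.range n, w j * (b.psi ((S a)^[q * j] p) : ℂ)‖ ≤ n := by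
  refine (norm_sum_le _ _).trans ?_
  have : ∀ j ∈ Finset.range n, ‖w j * (b.psi ((S a)^[q * j] p) : ℂ)‖ ≤ 1 := by
    intro j _
    rw [norm_mul, hw j, one_mul, Complex.norm_real]
    exact psi_abs b _
  refine (Finset.sum_le_sum this).trans ?_
  simp

/-- the scale -/
noncomputable def tau (a : ℝ) (q : ℕ) : ℝ := (|a| / q) ^ ((1:ℝ) / 3)

/-- the number of terms -/
noncomputable def nn (a : ℝ) (q : ℕ) : ℕ := ⌈tau a q⌉₊

/-- the constant -/
noncomputable def C2 : ℝ := 2 * C0 + 13 + l0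

theorem C2_pos : 0 < C2 := by
  unfold C2
  have := C0_pos
  have := l0_ge
  linarith

theorem tau_pos {a : ℝ} (ha : 1 ≤ |a|) {q : ℕ} (hq : 1 ≤ q) : 0 < tau a q := by
  unfold tau
  have : (0:ℝ) < q := by exact_mod_cast hq
  positivity

theorem tau_cube {a : ℝ} (ha : 1 ≤ |a|) {q : ℕ} (hq : 1 ≤ q) : q * tau a q ^ 3 = |a| := by
  unfold tau
  have hq0 : (0:ℝ) < q := by exact_mod_cast hq
  rw [← rpow_natCast, ← rpow_mul (by positivity)]
  norm_num
  field_simp

theorem tau_le {a : ℝ} (ha : 1 ≤ |a|) {q : ℕ} (hq : 1 ≤ q) : tau a q ≤ |a| := by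
  unfold tau
  have hq0 : (1:ℝ) ≤ q := by exact_mod_cast hq
  have h1 : |a| / q ≤ |a| := div_le_self (by linarith) hq0
  calc (|a| / q) ^ ((1:ℝ) / 3) ≤ |a| ^ ((1:ℝ) / 3) :=
        rpow_le_rpow (by positivity) h1 (by norm_num)
    _ ≤ |a| ^ (1:ℝ) := rpow_le_rpow_of_exponent_le ha (by norm_num)
    _ = |a| := rpow_one _

theorem nn_pos {a : ℝ} (ha : 1 ≤ |a|) {q : ℕ} (hq : 1 ≤ q) : 0 < nn a q :=
  Nat.ceil_pos.2 (tau_pos ha hq)

/-- **mean square of the weighted averages** -/
theorem mean_sq_main {a : ℝ} (ha : 1 ≤ |a|) {q : ℕ} (hq : 1 ≤ q) (b : Bx)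
    {w : ℕ → ℂ} (hw : ∀ j, ‖w j‖ = 1) :
    ∫ p : T2, ‖∑ j ∈ Finset.range (nn a q), w j * (b.psi ((S a)^[q * j] p) : ℂ)‖ ^ 2 ≤
      (nn a q : ℝ) ^ 2 * (C2 / tau a q) := by
  have hτ := tau_pos ha hq
  have hc := tau_cube ha hq
  have hle := tau_le ha hq
  have hn0 : (0:ℝ) < nn a q := by exact_mod_cast nn_pos ha hq
  have hn1 : tau a q ≤ nn a q := Nat.le_ceil _
  have hC := C0_pos
  have hl16 := l0_ge
  rcases lt_or_ge (tau a q) l0 with h | h
  · -- trivial case
    have h1 : ∫ p : T2, ‖∑ j ∈ Finset.range (nn a q), w j * (b.psi ((S a)^[q * j] p) : ℂ)‖ ^ 2 ≤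
        ∫ _ : T2, (nn a q : ℝ) ^ 2 := by
      apply integral_mono_of_nonneg
      · exact Filter.Eventually.of_forall fun p => by positivity
      · exact integrable_const _
      · refine Filter.Eventually.of_forall fun p => ?_
        have := mean_sq_triv a q b (nn a q) hw p
        have h0 := norm_nonneg (∑ j ∈ Finset.range (nn a q), w j * (b.psi ((S a)^[q * j] p) : ℂ))
        show _ ^ 2 ≤ _ ^ 2
        exact pow_le_pow_left₀ h0 this 2
    refine h1.trans ?_
    rw [integral_const, measureReal_def, measure_univ, ENNReal.toReal_one, one_smul]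
    have h2 : 1 ≤ C2 / tau a q := by
      rw [one_le_div hτ]
      unfold C2
      linarith
    have := mul_le_mul_of_nonneg_left h2 (by positivity : 0 ≤ (nn a q : ℝ) ^ 2)
    linarith
  · have h1 := mean_sq h hle hq b (nn a q) hw
    refine h1.trans ?_
    have hn2 : (nn a q : ℝ) ≤ 2 * tau a q := by
      have := Nat.ceil_lt_add_one hτ.le
      have : (nn a q : ℝ) < tau a q + 1 := this
      linarith
    have hq0 : (0:ℝ) < q := by exact_mod_cast hq
    have ha0 : 0 < |a| := by linarith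
    -- the last term
    have e1 : 2 * (q * (nn a q : ℝ)) * (tau a q / |a|) ≤ 4 / tau a q := by
      rw [mul_div_assoc', div_le_div_iff₀ ha0 hτ]
      calc 2 * (q * (nn a q : ℝ)) * tau a q * tau a q ≤ 2 * (q * (2 * tau a q)) * tau a q * tau a q := by
            gcongr
        _ = 4 * (q * tau a q ^ 3) := by ring
        _ = 4 * |a| := by rw [hc]
    have e2 : 5 * (nn a q : ℝ) ≤ (nn a q : ℝ) ^ 2 * (5 / tau a q) := by
      have : (1:ℝ) ≤ nn a q / tau a q := by
        rw [one_le_div hτ]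
        exact hn1
      calc 5 * (nn a q : ℝ) = 5 * (nn a q : ℝ) * 1 := by ring
        _ ≤ 5 * (nn a q : ℝ) * (nn a q / tau a q) := by gcongr
        _ = _ := by ring
    have e3 : (nn a q : ℝ) * nn a q * (2 * (C0 / tau a q + 2 * (q * (nn a q : ℝ)) * (tau a q / |a|))) ≤
        (nn a q : ℝ) ^ 2 * (2 * (C0 / tau a q + 4 / tau a q)) := by
      rw [← sq]
      gcongr
    have e4 : (nn a q : ℝ) ^ 2 * (5 / tau a q) + (nn a q : ℝ) ^ 2 * (2 * (C0 / tau a q + 4 / tau a q)) =
        (nn a q : ℝ) ^ 2 * ((2 * C0 + 13) / tau a q) := by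
      field_simp
      ring
    have e5 : (nn a q : ℝ) ^ 2 * ((2 * C0 + 13) / tau a q) ≤ (nn a q : ℝ) ^ 2 * (C2 / tau a q) := by
      gcongr
      unfold C2
      linarith
    linarith

end Run7.h608.SM
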