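import Mathlib
import Pool.Agent.Run7.h608.SM.L2

set_option autoImplicit false

/-!
# Boxes
-/

namespace Run7.h608.SM

open Real MeasureTheory Set Function
open Pool.Agent.TH705.SM (T2 S KK l0 integrable_cont S_cont S_mp iter_mp l0_ge KK_one)

/-- the representative in `[0,1)` -/
noncomputable def rep (z : UnitAddCircle) : ℝ := (AddCircle.measurableEquivIco 1 0 z : ℝ)

theorem rep_meas : Measurable rep :=
  measurable_subtype_coe.comp (AddCircle.measurableEquivIco (1:ℝ) 0).measurable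

theorem rep_mem (z : UnitAddCircle) : rep z ∈ Ico (0:ℝ) 1 := by
  obtain ⟨h1, h2⟩ := (AddCircle.measurableEquivIco (1:ℝ) 0 z).2
  have h3 : rep z < 0 + 1 := h2
  exact ⟨h1, by linarith⟩

theorem rep_coe_self (z : UnitAddCircle) : ((rep z : ℝ) : UnitAddCircle) = z :=
  (AddCircle.equivIco (1:ℝ) 0).symm_apply_apply z

theorem rep_coe {x : ℝ} (hx : x ∈ Ico (0:ℝ) 1) : rep (x : UnitAddCircle) = x := by
  have h := AddCircle.equivIco_coe_eq (p := (1:ℝ)) (a := 0) (x := x) (by rwa [zero_add])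
  show ((AddCircle.equivIco (1:ℝ) 0 (x : UnitAddCircle)) : ℝ) = x
  rw [h]

/-- the box `[0,s) × [0,t)` on the torus -/
def Box (s t : ℝ) : Set T2 :=
  {p | ∃ x ∈ Ico (0:ℝ) s, ∃ y ∈ Ico (0:ℝ) t, p = ((x : UnitAddCircle), (y : UnitAddCircle))}

theorem mem_Box {s t : ℝ} (hs : s ≤ 1) (ht : t ≤ 1) (p : T2) :
    p ∈ Box s t ↔ rep p.1 < s ∧ rep p.2 < t := by
  constructor
  · rintro ⟨x, hx, y, hy, rfl⟩
    have h1 : x ∈ Ico (0:ℝ) 1 := ⟨hx.1, hx.2.trans_le hs⟩
    have h2 : y ∈ Ico (0:ℝ) 1 := ⟨hy.1, hy.2.trans_le ht⟩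
    show rep (x : UnitAddCircle) < s ∧ rep (y : UnitAddCircle) < t
    rw [rep_coe h1, rep_coe h2]
    exact ⟨hx.2, hy.2⟩
  · rintro ⟨h1, h2⟩
    refine ⟨rep p.1, ⟨(rep_mem _).1, h1⟩, rep p.2, ⟨(rep_mem _).1, h2⟩, ?_⟩
    rw [rep_coe_self, rep_coe_self]

theorem Box_meas {s t : ℝ} (hs : s ≤ 1) (ht : t ≤ 1) : MeasurableSet (Box s t) := by
  have : Box s t = {p : T2 | rep p.1 < s} ∩ {p : T2 | rep p.2 < t} := by
    ext p
    exact mem_Box hs ht p
  rw [this]
  exact (measurableSet_lt (rep_meas.comp measurable_fst) measurable_const).inter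
    (measurableSet_lt (rep_meas.comp measurable_snd) measurable_const)

/-- the indicator function of the box -/
noncomputable def ib (s t : ℝ) (p : T2) : ℝ := (Box s t).indicator (fun _ => 1) p

theorem ib_eq {s t : ℝ} (hs : s ≤ 1) (ht : t ≤ 1) (p : T2) :
    ib s t p = ind s (rep p.1) * ind t (rep p.2) := by
  unfold ib ind
  by_cases h : p ∈ Box s t
  · rw [indicator_of_mem h]
    rw [mem_Box hs ht] at h
    rw [if_pos h.1, if_pos h.2, one_mul]
  · rw [indicator_of_notMem h]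
    rw [mem_Box hs ht, not_and_or] at h
    rcases h with h | h
    · rw [if_neg h, zero_mul]
    · rw [if_neg h, mul_zero]

theorem ib_mem (s t : ℝ) (p : T2) : 0 ≤ ib s t p ∧ ib s t p ≤ 1 := by
  unfold ib
  by_cases h : p ∈ Box s t
  · rw [indicator_of_mem h]; norm_num
  · rw [indicator_of_notMem h]; norm_num

theorem ib_measurable {s t : ℝ} (hs : s ≤ 1) (ht : t ≤ 1) : Measurable (ib s t) :=
  measurable_const.indicator (Box_meas hs ht)

theorem bdd_int {F : T2 → ℝ} (hF : Measurable F) {C : ℝ} (hC : ∀ p, |F p| ≤ C) : Integrable F :=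
  Integrable.of_bound hF.aestronglyMeasurable C (Filter.Eventually.of_forall fun p => by
    rw [norm_eq_abs]; exact hC p)

theorem ib_int {s t : ℝ} (hs : s ≤ 1) (ht : t ≤ 1) : Integrable (ib s t) :=
  bdd_int (ib_measurable hs ht) (C := 1) fun p => by
    rw [abs_of_nonneg (ib_mem s t p).1]; exact (ib_mem s t p).2

theorem ind_mem (s x : ℝ) : 0 ≤ ind s x ∧ ind s x ≤ 1 := by
  unfold ind
  split_ifs <;> norm_num

theorem lift_rep {H : ℝ → ℝ} (h : Periodic H 1) (z : UnitAddCircle) : h.lift z = H (rep z) := by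
  conv_lhs => rw [← rep_coe_self z]
  rfl

/-- upper bracket of a box -/
theorem box_upper {s t δ : ℝ} (hs0 : 0 ≤ s) (hs1 : s ≤ 1) (ht0 : 0 ≤ t) (ht1 : t ≤ 1) (hδ : 0 < δ) :
    ∃ b : Bx, (∀ p, ib s t p ≤ b.phi p) ∧ b.M ≤ s * t + 4 * δ := by
  obtain ⟨U, U', hU, hU1, hU2⟩ := upper hs0 hs1 hδ
  obtain ⟨V, V', hV, hV1, hV2⟩ := upper ht0 ht1 hδ
  refine ⟨⟨U, U', V, V', hU, hV⟩, ?_, ?_⟩
  · intro p
    rw [ib_eq hs1 ht1]
    show _ ≤ hU.per.lift p.1 * hV.per.lift p.2
    rw [lift_rep, lift_rep]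
    exact mul_le_mul (hU1 _ (rep_mem _)) (hV1 _ (rep_mem _)) (ind_mem _ _).1 (hU.nn _)
  · show (∫ x in (0:ℝ)..1, U x) * (∫ x in (0:ℝ)..1, V x) ≤ s * t + 4 * δ
    have h1 := hU.int_mem
    have h2 := hV.int_mem
    nlinarith

/-- lower bracket of a box -/
theorem box_lower {s t δ : ℝ} (hs0 : 0 ≤ s) (hs1 : s ≤ 1) (ht0 : 0 ≤ t) (ht1 : t ≤ 1) (hδ : 0 < δ) :
    ∃ b : Bx, (∀ p, b.phi p ≤ ib s t p) ∧ s * t - 4 * δ ≤ b.M := by
  obtain ⟨U, U', hU, hU1, hU2⟩ := lower hs0 hs1 hδ
  obtain ⟨V, V', hV, hV1, hV2⟩ := lower ht0 ht1 hδ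
  refine ⟨⟨U, U', V, V', hU, hV⟩, ?_, ?_⟩
  · intro p
    rw [ib_eq hs1 ht1]
    show hU.per.lift p.1 * hV.per.lift p.2 ≤ _
    rw [lift_rep, lift_rep]
    exact mul_le_mul (hU1 _ (rep_mem _)) (hV1 _ (rep_mem _)) (hV.nn _) (ind_mem _ _).1
  · show s * t - 4 * δ ≤ (∫ x in (0:ℝ)..1, U x) * (∫ x in (0:ℝ)..1, V x)
    have h1 := hU.int_mem
    have h2 := hV.int_mem
    nlinarith

theorem int_ib_le {s t : ℝ} (hs1 : s ≤ 1) (ht1 : t ≤ 1) (b : Bx) (h : ∀ p, ib s t p ≤ b.phi p) :
    ∫ p, ib s t p ≤ b.M := by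
  rw [← int_phi b]
  exact integral_mono (ib_int hs1 ht1) (integrable_cont (phi_cont b)) h

theorem le_int_ib {s t : ℝ} (hs1 : s ≤ 1) (ht1 : t ≤ 1) (b : Bx) (h : ∀ p, b.phi p ≤ ib s t p) :
    b.M ≤ ∫ p, ib s t p := by
  rw [← int_phi b]
  exact integral_mono (integrable_cont (phi_cont b)) (ib_int hs1 ht1) h

/-- the area of a box -/
theorem int_ib {s t : ℝ} (hs0 : 0 ≤ s) (hs1 : s ≤ 1) (ht0 : 0 ≤ t) (ht1 : t ≤ 1) :
    ∫ p, ib s t p = s * t := by
  apply le_antisymm
  · apply le_of_forall_pos_le_add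
    intro ε hε
    obtain ⟨b, h1, h2⟩ := box_upper hs0 hs1 ht0 ht1 (δ := ε / 4) (by positivity)
    have := int_ib_le hs1 ht1 b h1
    linarith
  · apply le_of_forall_pos_le_add
    intro ε hε
    obtain ⟨b, h1, h2⟩ := box_lower hs0 hs1 ht0 ht1 (δ := ε / 4) (by positivity)
    have := le_int_ib hs1 ht1 b h1
    linarith

/-- the area of a box -/
theorem vol_Box {s t : ℝ} (hs0 : 0 ≤ s) (hs1 : s ≤ 1) (ht0 : 0 ≤ t) (ht1 : t ≤ 1) :
    (volume (Box s t)).toReal = s * t := by
  rw [← int_ib hs0 hs1 ht0 ht1]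
  unfold ib
  rw [integral_indicator_const _ (Box_meas hs1 ht1)]
  simp [measureReal_def]

/-- the distance of a box from its upper bracket -/
theorem gap {s t δ : ℝ} (hs0 : 0 ≤ s) (hs1 : s ≤ 1) (ht0 : 0 ≤ t) (ht1 : t ≤ 1) (b : Bx)
    (h1 : ∀ p, ib s t p ≤ b.phi p) (h2 : b.M ≤ s * t + 4 * δ) :
    (∫ p, |b.phi p - ib s t p|) ≤ 4 * δ ∧ |b.M - s * t| ≤ 4 * δ := by
  have h3 := int_ib_le hs1 ht1 b h1
  rw [int_ib hs0 hs1 ht0 ht1] at h3
  constructor
  · have : ∀ p, |b.phi p - ib s t p| = b.phi p - ib s t p := fun p =>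
      abs_of_nonneg (by linarith [h1 p])
    simp_rw [this]
    rw [integral_sub (integrable_cont (phi_cont b)) (ib_int hs1 ht1), int_phi,
      int_ib hs0 hs1 ht0 ht1]
    linarith
  · rw [abs_of_nonneg (by linarith)]
    linarith

/-- correlations of mean zero functions, the best cutoff -/
theorem corr3 {a : ℝ} (ha : 1 ≤ |a|) {k : ℕ} (hk : 3 ≤ k) (b b2 : Bx) :
    |∫ p : T2, b.psi ((S a)^[k] p) * b2.psi p| ≤ (2 * C0 + 4 + l0) * √(k / |a|) := by
  have ha0 : 0 < |a| := by linarith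
  have hk0 : (0:ℝ) < k := by
    have : (3:ℝ) ≤ k := by exact_mod_cast hk
    linarith
  set l : ℝ := √(|a| / k) with hl
  have hl0 : 0 < l := sqrt_pos.2 (by positivity)
  have hl2 : l ^ 2 = |a| / k := sq_sqrt (by positivity)
  have hr : √(k / |a|) = 1 / l := by
    rw [hl, one_div, ← sqrt_inv, inv_div]
  have hC := C0_pos
  have hl16 := l0_ge
  rw [hr]
  rcases lt_or_ge l l0 with h | h
  · have h1 : |∫ p : T2, b.psi ((S a)^[k] p) * b2.psi p| ≤ 1 := by
      have := norm_integral_le_of_norm_le_const (μ := (volume : Measure T2))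
        (f := fun p : T2 => b.psi ((S a)^[k] p) * b2.psi p) (C := 1)
        (Filter.Eventually.of_forall fun p => by
          rw [norm_mul, norm_eq_abs, norm_eq_abs]
          exact mul_le_one₀ (psi_abs b _) (abs_nonneg _) (psi_abs b2 _))
      simpa using this
    refine h1.trans ?_
    rw [mul_one_div, one_le_div hl0]
    linarith
  · have hla : l ≤ |a| := by
      have h3 : |a| / k ≤ |a| := div_le_self ha0.le (by
        have : (3:ℝ) ≤ k := by exact_mod_cast hk
        linarith)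
      calc l ≤ √|a| := sqrt_le_sqrt h3
        _ ≤ |a| := by
          rw [sqrt_le_left ha0.le]
          nlinarith
    refine (corr2 h hla hk b b2).trans ?_
    have e : 2 * (k:ℝ) * (l / |a|) = 2 / l := by
      rw [eq_div_iff hl0.ne']
      have : |a| = k * l ^ 2 := by
        rw [hl2]
        field_simp
      rw [this]
      field_simp
    rw [e]
    have : 2 * (C0 / l + 2 / l) = (2 * C0 + 4) * (1 / l) := by ring
    rw [this]
    have h5 : 0 < 1 / l := by positivity
    nlinarith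

/-- **decay of correlations of boxes** -/
theorem corr_box {a : ℝ} (ha : 1 ≤ |a|) {k : ℕ} (hk : 3 ≤ k) {s t s' t' : ℝ}
    (hs0 : 0 ≤ s) (hs1 : s ≤ 1) (ht0 : 0 ≤ t) (ht1 : t ≤ 1)
    (hs0' : 0 ≤ s') (hs1' : s' ≤ 1) (ht0' : 0 ≤ t') (ht1' : t' ≤ 1) :
    |(volume (Box s t ∩ (S a)^[k] ⁻¹' Box s' t')).toReal - s * t * (s' * t')| ≤
      (2 * C0 + 4 + l0) * √(k / |a|) := by
  apply le_of_forall_pos_le_add
  intro ε hε
  obtain ⟨b, h1, h2⟩ := box_upper hs0 hs1 ht0 ht1 (δ := ε / 16) (by positivity)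
  obtain ⟨b', h1', h2'⟩ := box_upper hs0' hs1' ht0' ht1' (δ := ε / 16) (by positivity)
  obtain ⟨g1, g2⟩ := gap hs0 hs1 ht0 ht1 b h1 h2
  obtain ⟨g1', g2'⟩ := gap hs0' hs1' ht0' ht1' b' h1' h2'
  have hSm : Measurable ((S a)^[k]) := ((S_cont a).iterate k).measurable
  -- volume as an integral
  have e1 : (volume (Box s t ∩ (S a)^[k] ⁻¹' Box s' t')).toReal =
      ∫ p : T2, ib s' t' ((S a)^[k] p) * ib s t p := by
    have hm : MeasurableSet (Box s t ∩ (S a)^[k] ⁻¹' Box s' t') :=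
      (Box_meas hs1 ht1).inter (hSm (Box_meas hs1' ht1'))
    have : ∀ p : T2, ib s' t' ((S a)^[k] p) * ib s t p =
        (Box s t ∩ (S a)^[k] ⁻¹' Box s' t').indicator (fun _ => (1:ℝ)) p := by
      intro p
      unfold ib
      by_cases q1 : p ∈ Box s t
      · by_cases q2 : (S a)^[k] p ∈ Box s' t'
        · rw [indicator_of_mem q1, indicator_of_mem q2,
            indicator_of_mem (show p ∈ Box s t ∩ (S a)^[k] ⁻¹' Box s' t' from ⟨q1, q2⟩)]
          norm_num
        · rw [indicator_of_notMem q2,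
            indicator_of_notMem (show p ∉ Box s t ∩ (S a)^[k] ⁻¹' Box s' t' from fun h => q2 h.2)]
          norm_num
      · rw [indicator_of_notMem q1,
          indicator_of_notMem (show p ∉ Box s t ∩ (S a)^[k] ⁻¹' Box s' t' from fun h => q1 h.1)]
        norm_num
    simp_rw [this]
    rw [integral_indicator_const _ hm]
    simp [measureReal_def]
  -- comparison
  have m1 : Measurable fun p : T2 => ib s' t' ((S a)^[k] p) := (ib_measurable hs1' ht1').comp hSm
  have m2 := ib_measurable hs1 ht1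
  have m3 : Measurable fun p : T2 => b'.phi ((S a)^[k] p) := (phi_cont b').measurable.comp hSm
  have m4 : Measurable b.phi := (phi_cont b).measurable
  have e2 : |(∫ p : T2, b'.phi ((S a)^[k] p) * b.phi p) - ∫ p : T2, ib s' t' ((S a)^[k] p) * ib s t p| ≤
      ε / 2 := by
    have i1 : Integrable fun p : T2 => b'.phi ((S a)^[k] p) * b.phi p :=
      bdd_int (m3.mul m4) (C := 1) fun p => by
        rw [abs_mul]
        exact mul_le_one₀ (by rw [abs_of_nonneg (phi_mem b' _).1]; exact (phi_mem b' _).2)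
          (abs_nonneg _) (by rw [abs_of_nonneg (phi_mem b _).1]; exact (phi_mem b _).2)
    have i2 : Integrable fun p : T2 => ib s' t' ((S a)^[k] p) * ib s t p :=
      bdd_int (m1.mul m2) (C := 1) fun p => by
        rw [abs_mul]
        exact mul_le_one₀ (by rw [abs_of_nonneg (ib_mem _ _ _).1]; exact (ib_mem _ _ _).2)
          (abs_nonneg _) (by rw [abs_of_nonneg (ib_mem _ _ _).1]; exact (ib_mem _ _ _).2)
    rw [← integral_sub i1 i2]
    refine abs_integral_le_integral_abs.trans ?_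
    have j1 : Integrable fun p : T2 => |b'.phi ((S a)^[k] p) - ib s' t' ((S a)^[k] p)| :=
      bdd_int (m3.sub m1).abs (C := 1) fun p => by
        rw [abs_abs, abs_le]
        have := phi_mem b' ((S a)^[k] p)
        have := ib_mem s' t' ((S a)^[k] p)
        constructor <;> linarith
    have j2 : Integrable fun p : T2 => |b.phi p - ib s t p| :=
      bdd_int (m4.sub m2).abs (C := 1) fun p => by
        rw [abs_abs, abs_le]
        have := phi_mem b p
        have := ib_mem s t p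
        constructor <;> linarith
    have hpt : ∀ p : T2, |b'.phi ((S a)^[k] p) * b.phi p - ib s' t' ((S a)^[k] p) * ib s t p| ≤
        |b'.phi ((S a)^[k] p) - ib s' t' ((S a)^[k] p)| + |b.phi p - ib s t p| := by
      intro p
      have e : b'.phi ((S a)^[k] p) * b.phi p - ib s' t' ((S a)^[k] p) * ib s t p =
          (b'.phi ((S a)^[k] p) - ib s' t' ((S a)^[k] p)) * b.phi p +
          ib s' t' ((S a)^[k] p) * (b.phi p - ib s t p) := by ring
      rw [e]
      refine (abs_add_le _ _).trans ?_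
      rw [abs_mul, abs_mul]
      have k1 : |b.phi p| ≤ 1 := by rw [abs_of_nonneg (phi_mem b _).1]; exact (phi_mem b _).2
      have k2 : |ib s' t' ((S a)^[k] p)| ≤ 1 := by
        rw [abs_of_nonneg (ib_mem _ _ _).1]; exact (ib_mem _ _ _).2
      have k3 := mul_le_mul_of_nonneg_left k1 (abs_nonneg (b'.phi ((S a)^[k] p) - ib s' t' ((S a)^[k] p)))
      have k4 := mul_le_mul_of_nonneg_right k2 (abs_nonneg (b.phi p - ib s t p))
      linarith
    have i3 : Integrable fun p : T2 => |b'.phi ((S a)^[k] p) * b.phi p - ib s' t' ((S a)^[k] p) * ib s t p| :=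
      (i1.sub i2).abs
    refine (integral_mono i3 (j1.add j2) hpt).trans ?_
    have e3 : ∫ p : T2, ((fun p : T2 => |b'.phi ((S a)^[k] p) - ib s' t' ((S a)^[k] p)|) +
        fun p => |b.phi p - ib s t p|) p =
        (∫ p : T2, |b'.phi ((S a)^[k] p) - ib s' t' ((S a)^[k] p)|) + ∫ p : T2, |b.phi p - ib s t p| :=
      integral_add j1 j2
    rw [e3]
    have e4 : ∫ p : T2, |b'.phi ((S a)^[k] p) - ib s' t' ((S a)^[k] p)| =
        ∫ p : T2, |b'.phi p - ib s' t' p| := by
      have hh := integral_map (μ := (volume : Measure T2)) (φ := (S a)^[k]) hSm.aemeasurable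
        (f := fun p : T2 => |b'.phi p - ib s' t' p|)
        (((phi_cont b').measurable.sub (ib_measurable hs1' ht1')).abs).aestronglyMeasurable
      rw [(iter_mp a k).map_eq] at hh
      exact hh.symm
    rw [e4]
    linarith
  -- main term
  have e5 : ∫ p : T2, b'.phi ((S a)^[k] p) * b.phi p =
      (∫ p : T2, b'.psi ((S a)^[k] p) * b.psi p) + b'.M * b.M := by
    have c1 : Continuous fun p : T2 => b'.phi ((S a)^[k] p) := (phi_cont b').comp ((S_cont a).iterate k)
    have c2 := phi_cont b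
    have hpt : ∀ p : T2, b'.psi ((S a)^[k] p) * b.psi p = b'.phi ((S a)^[k] p) * b.phi p -
        (b.M * b'.phi ((S a)^[k] p) + b'.M * b.phi p - b'.M * b.M) := by
      intro p
      unfold Bx.psi
      ring
    simp_rw [hpt]
    have k2 : Continuous fun p : T2 => b.M * b'.phi ((S a)^[k] p) := continuous_const.mul c1
    have k3 : Continuous fun p : T2 => b'.M * b.phi p := continuous_const.mul c2
    have k4 : Continuous fun p : T2 => b.M * b'.phi ((S a)^[k] p) + b'.M * b.phi p := k2.add k3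
    have k5 : Continuous fun p : T2 => b.M * b'.phi ((S a)^[k] p) + b'.M * b.phi p - b'.M * b.M :=
      k4.sub continuous_const
    have k1 : Continuous fun p : T2 => b'.phi ((S a)^[k] p) * b.phi p := c1.mul c2
    rw [isub k1 k5, isub k4 continuous_const, iadd k2 k3, integral_const_mul, integral_const_mul,
      int_comp a k (phi_cont b'), int_phi, int_phi, integral_const]
    simp
    ring
  have e6 := corr3 ha hk b' b
  have e7 : |b'.M * b.M - s * t * (s' * t')| ≤ ε / 2 := by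
    have e : b'.M * b.M - s * t * (s' * t') = (b'.M - s' * t') * b.M + s' * t' * (b.M - s * t) := by ring
    rw [e]
    refine (abs_add_le _ _).trans ?_
    rw [abs_mul, abs_mul]
    have k1 : |b.M| ≤ 1 := by rw [abs_of_nonneg (M_mem b).1]; exact (M_mem b).2
    have k2 : |s' * t'| ≤ 1 := by
      rw [abs_of_nonneg (by positivity)]
      exact mul_le_one₀ hs1' ht0' ht1'
    have k3 := mul_le_mul_of_nonneg_left k1 (abs_nonneg (b'.M - s' * t'))
    have k4 := mul_le_mul_of_nonneg_right k2 (abs_nonneg (b.M - s * t))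
    linarith
  rw [e1]
  rw [e5] at e2
  rw [abs_le] at e2 e6 e7 ⊢
  constructor <;> linarith [e2.1, e2.2, e6.1, e6.2, e7.1, e7.2]

end Run7.h608.SM
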