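import Mathlib
import Pool.Agent.Run7.h608.SM.Box

set_option autoImplicit false

/-!
# Eigenfunctions and invariant sets
-/

namespace Run7.h608.SM

open Real MeasureTheory Set Function Filter
open Pool.Agent.TH705.SM (T2 S KK l0 integrable_cont S_cont S_mp iter_mp l0_ge KK_one)

theorem cs {f g : T2 → ℂ} (hf : MemLp f 2 volume) (hg : MemLp g 2 volume) :
    ‖∫ p, f p * g p‖ ≤ √(∫ p, ‖f p‖ ^ 2) * √(∫ p, ‖g p‖ ^ 2) := by
  have h2 : ENNReal.ofReal 2 = 2 := by norm_num
  have h := integral_mul_norm_le_Lp_mul_Lq (μ := (volume : Measure T2)) (f := f) (g := g)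
    (p := 2) (q := 2) Real.HolderConjugate.two_two (by rwa [h2]) (by rwa [h2])
  have e1 : ∀ u : T2 → ℂ, (∫ p, ‖u p‖ ^ (2:ℝ)) ^ ((1:ℝ) / 2) = √(∫ p, ‖u p‖ ^ 2) := by
    intro u
    rw [sqrt_eq_rpow]
    simp_rw [rpow_two]
  rw [e1, e1] at h
  refine le_trans ?_ h
  refine (norm_integral_le_integral_norm _).trans (le_of_eq ?_)
  apply integral_congr_ae
  exact Eventually.of_forall fun p => norm_mul _ _

theorem memLp_bdd {g : T2 → ℂ} (hg : Measurable g) {C : ℝ} (hC : ∀ p, ‖g p‖ ≤ C) :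
    MemLp g 2 volume :=
  MemLp.of_bound hg.aestronglyMeasurable C (Eventually.of_forall hC)

theorem inv_iter {a : ℝ} {q : ℕ} {lam : ℂ} {f : T2 → ℂ}
    (hinv : ∀ᵐ p ∂(volume : Measure T2), f ((S a)^[q] p) = lam * f p) (j : ℕ) :
    ∀ᵐ p ∂(volume : Measure T2), f ((S a)^[q * j] p) = lam ^ j * f p := by
  induction j with
  | zero => simp
  | succ j ih =>
    have h1 : ∀ᵐ p ∂(volume : Measure T2), f ((S a)^[q] ((S a)^[q * j] p)) =
        lam * f ((S a)^[q * j] p) :=
      (iter_mp a (q * j)).quasiMeasurePreserving.ae hinv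
    filter_upwards [ih, h1] with p hp1 hp2
    have e : q * (j + 1) = q + q * j := by ring
    rw [e, iterate_add_apply, hp2, hp1, pow_succ]
    ring

theorem eig_psi {a : ℝ} (ha : 1 ≤ |a|) {q : ℕ} (hq : 1 ≤ q) {lam : ℂ} (hlam : ‖lam‖ = 1)
    {f : T2 → ℂ} (hf : MemLp f 2 volume)
    (hinv : ∀ᵐ p ∂(volume : Measure T2), f ((S a)^[q] p) = lam * f p) (b : Bx) :
    ‖∫ p, f p * (b.psi p : ℂ)‖ ≤ √(C2 / tau a q) * √(∫ p, ‖f p‖ ^ 2) := by
  set n := nn a q with hn
  have hn0 : (0:ℝ) < n := by exact_mod_cast nn_pos ha hq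
  set G : T2 → ℂ := fun p => ∑ j ∈ Finset.range n, lam ^ j * (b.psi ((S a)^[q * j] p) : ℂ) with hG
  have hGc : Continuous G := by
    apply continuous_finsetSum
    intro j _
    exact continuous_const.mul (Complex.continuous_ofReal.comp (psi_it_cont a b _))
  have hGb : ∀ p, ‖G p‖ ≤ n := fun p =>
    mean_sq_triv a q b n (w := fun j => lam ^ j) (fun j => by rw [norm_pow, hlam, one_pow]) p
  have hfi : Integrable f := hf.integrable (by norm_num)
  have hterm : ∀ j : ℕ, Integrable fun p : T2 => f p * (lam ^ j * (b.psi ((S a)^[q * j] p) : ℂ)) := by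
    intro j
    apply hfi.mul_bdd (c := 1)
    · exact (continuous_const.mul (Complex.continuous_ofReal.comp (psi_it_cont a b _))).aestronglyMeasurable
    · refine Eventually.of_forall fun p => ?_
      rw [norm_mul, norm_pow, hlam, one_pow, one_mul, Complex.norm_real]
      exact psi_abs b _
  have he : ∀ j : ℕ, ∫ p, f p * (lam ^ j * (b.psi ((S a)^[q * j] p) : ℂ)) = ∫ p, f p * (b.psi p : ℂ) := by
    intro j
    have hm := iter_mp a (q * j)
    have h1 : ∫ p, f p * (b.psi p : ℂ) =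
        ∫ p, f ((S a)^[q * j] p) * (b.psi ((S a)^[q * j] p) : ℂ) := by
      have h2 := integral_map (μ := (volume : Measure T2)) (φ := (S a)^[q * j])
        hm.measurable.aemeasurable (f := fun p => f p * (b.psi p : ℂ)) (by
          rw [hm.map_eq]
          exact hf.aestronglyMeasurable.mul
            (Complex.continuous_ofReal.comp (psi_cont b)).aestronglyMeasurable)
      rw [hm.map_eq] at h2
      exact h2
    rw [h1]
    apply integral_congr_ae
    filter_upwards [inv_iter hinv j] with p hp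
    rw [hp]
    ring
  have hsum : (n : ℂ) * ∫ p, f p * (b.psi p : ℂ) = ∫ p, f p * G p := by
    have : ∀ p, f p * G p = ∑ j ∈ Finset.range n, f p * (lam ^ j * (b.psi ((S a)^[q * j] p) : ℂ)) := by
      intro p
      rw [hG, Finset.mul_sum]
    simp_rw [this]
    rw [integral_finsetSum _ fun j _ => hterm j]
    simp_rw [he]
    rw [Finset.sum_const, Finset.card_range, nsmul_eq_mul]
  have h3 := cs hf (memLp_bdd hGc.measurable hGb)
  rw [← hsum, norm_mul, Complex.norm_natCast] at h3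
  have h4 : √(∫ p, ‖G p‖ ^ 2) ≤ n * √(C2 / tau a q) := by
    have h5 := mean_sq_main ha hq b (w := fun j => lam ^ j) (fun j => by rw [norm_pow, hlam, one_pow])
    have h6 : √(∫ p, ‖G p‖ ^ 2) ≤ √((n : ℝ) ^ 2 * (C2 / tau a q)) := sqrt_le_sqrt h5
    rwa [sqrt_mul (by positivity), sqrt_sq hn0.le] at h6
  have h7 : (n:ℝ) * ‖∫ p, f p * (b.psi p : ℂ)‖ ≤ n * (√(C2 / tau a q) * √(∫ p, ‖f p‖ ^ 2)) := by
    refine h3.trans ?_
    have := mul_le_mul_of_nonneg_left h4 (sqrt_nonneg (∫ p, ‖f p‖ ^ 2))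
    linarith
  exact le_of_mul_le_mul_left h7 hn0

theorem eig_box {a : ℝ} (ha : 1 ≤ |a|) {q : ℕ} (hq : 1 ≤ q) {lam : ℂ} (hlam : ‖lam‖ = 1)
    {f : T2 → ℂ} (hf : MemLp f 2 volume)
    (hinv : ∀ᵐ p ∂(volume : Measure T2), f ((S a)^[q] p) = lam * f p) {s t : ℝ}
    (hs0 : 0 ≤ s) (hs1 : s ≤ 1) (ht0 : 0 ≤ t) (ht1 : t ≤ 1) :
    ‖(∫ p in Box s t, f p) - ((s * t : ℝ) : ℂ) * ∫ p, f p‖ ≤
      √(C2 / tau a q) * √(∫ p, ‖f p‖ ^ 2) := by
  set N := √(∫ p, ‖f p‖ ^ 2) with hN
  have hN0 : 0 ≤ N := sqrt_nonneg _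
  apply le_of_forall_pos_le_add
  intro ε hε
  set η : ℝ := min 1 (ε / (N + 1)) with hη
  have hη0 : 0 < η := lt_min one_pos (by positivity)
  have hη1 : η ≤ 1 := min_le_left _ _
  have hη2 : N * η ≤ ε := by
    have h1 : η ≤ ε / (N + 1) := min_le_right _ _
    rw [le_div_iff₀ (by positivity)] at h1
    nlinarith
  obtain ⟨b, h1, h2⟩ := box_upper hs0 hs1 ht0 ht1 (δ := η ^ 2 / 16) (by positivity)
  obtain ⟨g1, g2⟩ := gap hs0 hs1 ht0 ht1 b h1 h2
  have hfi : Integrable f := hf.integrable (by norm_num)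
  -- decomposition
  have hib : Measurable fun p : T2 => ((ib s t p : ℝ) : ℂ) :=
    Complex.measurable_ofReal.comp (ib_measurable hs1 ht1)
  have hps : Measurable fun p : T2 => ((b.psi p : ℝ) : ℂ) :=
    Complex.measurable_ofReal.comp (psi_cont b).measurable
  have hdf : Measurable fun p : T2 => ((ib s t p - b.phi p : ℝ) : ℂ) :=
    Complex.measurable_ofReal.comp ((ib_measurable hs1 ht1).sub (phi_cont b).measurable)
  have hdb : ∀ p : T2, ‖((ib s t p - b.phi p : ℝ) : ℂ)‖ ≤ 1 := by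
    intro p
    rw [Complex.norm_real, norm_eq_abs, abs_le]
    have := phi_mem b p
    have := ib_mem s t p
    constructor <;> linarith
  have i1 : Integrable fun p : T2 => f p * ((b.psi p : ℝ) : ℂ) :=
    hfi.mul_bdd (c := 1) hps.aestronglyMeasurable (Eventually.of_forall fun p => by
      rw [Complex.norm_real]; exact psi_abs b p)
  have i2 : Integrable fun p : T2 => f p * ((ib s t p - b.phi p : ℝ) : ℂ) :=
    hfi.mul_bdd (c := 1) hdf.aestronglyMeasurable (Eventually.of_forall hdb)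
  have i3 : Integrable fun p : T2 => ((b.M - s * t : ℝ) : ℂ) * f p := hfi.const_mul _
  have e1 : (∫ p in Box s t, f p) - ((s * t : ℝ) : ℂ) * ∫ p, f p =
      (∫ p, f p * ((b.psi p : ℝ) : ℂ)) + (∫ p, f p * ((ib s t p - b.phi p : ℝ) : ℂ)) +
        ((b.M - s * t : ℝ) : ℂ) * ∫ p, f p := by
    rw [← integral_const_mul, ← integral_const_mul, ← integral_add i1 i2]
    have i12 : Integrable fun p : T2 => f p * ((b.psi p : ℝ) : ℂ) + f p * ((ib s t p - b.phi p : ℝ) : ℂ) :=
      i1.add i2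
    rw [← integral_add i12 i3, ← integral_indicator (Box_meas hs1 ht1)]
    rw [← integral_sub (hfi.indicator (Box_meas hs1 ht1)) (hfi.const_mul _)]
    apply integral_congr_ae
    refine Eventually.of_forall fun p => ?_
    show (Box s t).indicator f p - ((s * t : ℝ) : ℂ) * f p = _
    have e2 : (Box s t).indicator f p = f p * ((ib s t p : ℝ) : ℂ) := by
      unfold ib
      by_cases h : p ∈ Box s t
      · rw [indicator_of_mem h, indicator_of_mem h]; simp
      · rw [indicator_of_notMem h, indicator_of_notMem h]; simp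
    rw [e2]
    unfold Bx.psi
    push_cast
    ring
  rw [e1]
  have k1 := eig_psi ha hq hlam hf hinv b
  have k2 : ‖∫ p, f p * ((ib s t p - b.phi p : ℝ) : ℂ)‖ ≤ N * (η / 2) := by
    refine (cs hf (memLp_bdd hdf hdb)).trans ?_
    apply mul_le_mul_of_nonneg_left _ hN0
    have h3 : ∫ p, ‖((ib s t p - b.phi p : ℝ) : ℂ)‖ ^ 2 ≤ (η / 2) ^ 2 := by
      have h4 : ∫ p, ‖((ib s t p - b.phi p : ℝ) : ℂ)‖ ^ 2 ≤ ∫ p, |b.phi p - ib s t p| := by
        apply integral_mono_of_nonneg
        · exact Eventually.of_forall fun p => by positivity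
        · exact ((integrable_cont (phi_cont b)).sub (ib_int hs1 ht1)).abs
        · refine Eventually.of_forall fun p => ?_
          have h5 := hdb p
          have h6 : ‖((ib s t p - b.phi p : ℝ) : ℂ)‖ = |b.phi p - ib s t p| := by
            rw [Complex.norm_real, norm_eq_abs, abs_sub_comm]
          show ‖((ib s t p - b.phi p : ℝ) : ℂ)‖ ^ 2 ≤ |b.phi p - ib s t p|
          rw [h6] at h5 ⊢
          have h7 := abs_nonneg (b.phi p - ib s t p)
          nlinarith
      refine h4.trans (g1.trans (le_of_eq ?_))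
      ring
    calc √(∫ p, ‖((ib s t p - b.phi p : ℝ) : ℂ)‖ ^ 2) ≤ √((η / 2) ^ 2) := sqrt_le_sqrt h3
      _ = η / 2 := sqrt_sq (by positivity)
  have k3 : ‖((b.M - s * t : ℝ) : ℂ) * ∫ p, f p‖ ≤ η / 4 * N := by
    rw [norm_mul, Complex.norm_real, norm_eq_abs]
    apply mul_le_mul
    · refine g2.trans ?_
      nlinarith
    · have := cs hf (memLp_bdd (g := fun _ => (1:ℂ)) measurable_const (C := 1) (fun _ => by simp))
      simpa using this
    · exact norm_nonneg _
    · positivity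
  refine (norm_add_le _ _).trans ?_
  refine (add_le_add_left (norm_add_le _ _) _).trans ?_
  nlinarith

theorem eig_final {a : ℝ} (ha : 1 ≤ |a|) {q : ℕ} (hq : 1 ≤ q) {lam : ℂ} (hlam : ‖lam‖ = 1)
    {f : T2 → ℂ} (hf : MemLp f 2 volume)
    (hinv : ∀ᵐ p ∂(volume : Measure T2), f ((S a)^[q] p) = lam * f p) {s t : ℝ}
    (hs0 : 0 ≤ s) (hs1 : s ≤ 1) (ht0 : 0 ≤ t) (ht1 : t ≤ 1) :
    ‖(∫ p in Box s t, f p) - ((s * t : ℝ) : ℂ) * ∫ p, f p‖ ≤
      √(C2 / tau a q) * √(∫ p, ‖f p - ∫ p', f p'‖ ^ 2) := by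
  set c := ∫ p, f p with hc
  have hfi : Integrable f := hf.integrable (by norm_num)
  have hm := iter_mp a q
  have h1 : (1 - lam) * c = 0 := by
    have h2 := integral_map (μ := (volume : Measure T2)) (φ := (S a)^[q])
      hm.measurable.aemeasurable (f := f) (by rw [hm.map_eq]; exact hf.aestronglyMeasurable)
    rw [hm.map_eq] at h2
    have h3 : ∫ p, f ((S a)^[q] p) = lam * c := by
      rw [hc, ← integral_const_mul]
      exact integral_congr_ae hinv
    rw [h3] at h2
    rw [sub_mul, one_mul, ← h2, ← hc, sub_self]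
  have hg : MemLp (fun p => f p - c) 2 volume := hf.sub (memLp_const c)
  have hinv' : ∀ᵐ p ∂(volume : Measure T2), f ((S a)^[q] p) - c = lam * (f p - c) := by
    filter_upwards [hinv] with p hp
    rw [hp]
    linear_combination -h1
  have h4 := eig_box ha hq hlam hg hinv' hs0 hs1 ht0 ht1
  have h5 : (∫ p in Box s t, (f p - c)) - ((s * t : ℝ) : ℂ) * ∫ p, (f p - c) =
      (∫ p in Box s t, f p) - ((s * t : ℝ) : ℂ) * c := by
    rw [integral_sub hfi.integrableOn (integrable_const c).integrableOn,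
      integral_sub hfi (integrable_const c), setIntegral_const, integral_const, ← hc,
      measureReal_def, vol_Box hs0 hs1 ht0 ht1]
    simp
  rw [h5] at h4
  exact h4

/-- **invariant sets are evenly distributed** -/
theorem inv_set {a : ℝ} (ha : 1 ≤ |a|) {q : ℕ} (hq : 1 ≤ q) {A : Set T2} (hA : MeasurableSet A)
    (hinv : (S a)^[q] ⁻¹' A = A) {s t : ℝ}
    (hs0 : 0 ≤ s) (hs1 : s ≤ 1) (ht0 : 0 ≤ t) (ht1 : t ≤ 1) :
    |(volume (A ∩ Box s t)).toReal - (volume A).toReal * (s * t)| ≤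
      √(C2 / tau a q) * √((volume A).toReal * (volume Aᶜ).toReal) := by
  set f : T2 → ℂ := A.indicator fun _ => 1 with hf
  have hfm : Measurable f := measurable_const.indicator hA
  have hfb : ∀ p, ‖f p‖ ≤ 1 := by
    intro p
    by_cases h : p ∈ A
    · rw [hf, indicator_of_mem h]; simp
    · rw [hf, indicator_of_notMem h]; simp
  have hf2 := memLp_bdd hfm hfb
  have h1 : ∀ᵐ p ∂(volume : Measure T2), f ((S a)^[q] p) = 1 * f p := by
    refine Eventually.of_forall fun p => ?_
    rw [one_mul]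
    by_cases h : p ∈ A
    · have h' : (S a)^[q] p ∈ A := by
        have : p ∈ (S a)^[q] ⁻¹' A := by rw [hinv]; exact h
        exact this
      rw [hf, indicator_of_mem h, indicator_of_mem h']
    · have h' : (S a)^[q] p ∉ A := by
        intro hcon
        have : p ∈ (S a)^[q] ⁻¹' A := hcon
        rw [hinv] at this
        exact h this
      rw [hf, indicator_of_notMem h, indicator_of_notMem h']
  have h2 := eig_final ha hq (lam := 1) (by simp) hf2 h1 hs0 hs1 ht0 ht1
  have e1 : ∫ p in Box s t, f p = (((volume (A ∩ Box s t)).toReal : ℝ) : ℂ) := by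
    rw [hf, setIntegral_indicator hA, setIntegral_const, measureReal_def, inter_comm]
    simp
  have e2 : ∫ p, f p = (((volume A).toReal : ℝ) : ℂ) := by
    rw [hf, integral_indicator_const _ hA, measureReal_def]
    simp
  have hv : (volume Aᶜ).toReal = 1 - (volume A).toReal := by
    rw [prob_compl_eq_one_sub hA, ENNReal.toReal_sub_of_le prob_le_one ENNReal.one_ne_top]
    simp
  have e3 : ∫ p, ‖f p - ∫ p', f p'‖ ^ 2 = (volume A).toReal * (volume Aᶜ).toReal := by
    rw [e2, hv]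
    set m := (volume A).toReal with hm
    have h3 : ∀ p, ‖f p - ((m : ℝ) : ℂ)‖ ^ 2 = A.indicator (fun _ => (1 - m) ^ 2 - m ^ 2) p + m ^ 2 := by
      intro p
      by_cases h : p ∈ A
      · rw [hf, indicator_of_mem h, indicator_of_mem h]
        have : (1:ℂ) - (m:ℂ) = ((1 - m : ℝ) : ℂ) := by push_cast; ring
        rw [this, Complex.norm_real, norm_eq_abs, sq_abs]
        ring
      · rw [hf, indicator_of_notMem h, indicator_of_notMem h]
        rw [zero_sub, norm_neg, Complex.norm_real, norm_eq_abs, sq_abs]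
        ring
    simp_rw [h3]
    rw [integral_add ((integrable_const _).indicator hA) (integrable_const _),
      integral_indicator_const _ hA, measureReal_def, ← hm, integral_const]
    simp
    ring
  rw [e3, e1, e2] at h2
  have e4 : (((volume (A ∩ Box s t)).toReal : ℝ) : ℂ) - ((s * t : ℝ) : ℂ) * (((volume A).toReal : ℝ) : ℂ) =
      (((volume (A ∩ Box s t)).toReal - (volume A).toReal * (s * t) : ℝ) : ℂ) := by
    push_cast
    ring
  rw [e4, Complex.norm_real, norm_eq_abs] at h2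
  exact h2

/-- the rate -/
theorem rate {a : ℝ} (ha : 1 ≤ |a|) {q : ℕ} (hq : 1 ≤ q) :
    √(C2 / tau a q) = √C2 * (q / |a|) ^ ((1:ℝ) / 6) := by
  have ha0 : 0 < |a| := by linarith
  have hq0 : (0:ℝ) < q := by exact_mod_cast hq
  have h1 : 1 / tau a q = (q / |a|) ^ ((1:ℝ) / 3) := by
    unfold tau
    rw [one_div, ← inv_rpow (by positivity), inv_div]
  have h2 : C2 / tau a q = C2 * (q / |a|) ^ ((1:ℝ) / 3) := by
    rw [← h1]; ring
  rw [h2, sqrt_mul C2_pos.le, sqrt_eq_rpow ((q / |a|) ^ ((1:ℝ) / 3)), ← rpow_mul (by positivity)]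
  norm_num

end Run7.h608.SM
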