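import Mathlib
import Pool.Agent.Run7.h608.SM.Eig

set_option autoImplicit false

/-!
# A Bessel inequality for the correlations of a box with an arbitrary square integrable function
-/

namespace Run7.h608.SM

open Real MeasureTheory Set Function Filter
open Pool.Agent.TH705.SM (T2 S KK l0 integrable_cont S_cont S_mp iter_mp l0_ge KK_one)

theorem coef_le' (u v : ℂ) : |u.re * v.re + u.im * v.im| ≤ (‖u‖ ^ 2 + ‖v‖ ^ 2) / 2 := by
  have h : u.re * v.re + u.im * v.im = (u * (starRingEnd ℂ) v).re := by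
    simp [Complex.mul_re]
  rw [h]
  refine (Complex.abs_re_le_norm _).trans ?_
  rw [norm_mul, RCLike.norm_conj]
  nlinarith [sq_nonneg (‖u‖ - ‖v‖)]

/-- mean square with arbitrary weights -/
theorem mean_sq_w {a : ℝ} {q : ℕ} (b : Bx) (n : ℕ) {E : ℝ} (hE0 : 0 ≤ E)
    (hE : ∀ i j : ℕ, i < n → j < n → (i + 3 ≤ j ∨ j + 3 ≤ i) → |cc a q b i j| ≤ E) (w : ℕ → ℂ) :
    ∫ p : T2, ‖∑ j ∈ Finset.range n, w j * (b.psi ((S a)^[q * j] p) : ℂ)‖ ^ 2 ≤
      (5 + n * E) * ∑ j ∈ Finset.range n, ‖w j‖ ^ 2 := by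
  simp_rw [norm_sq_sum]
  have hc : ∀ i j : ℕ, Continuous fun p : T2 =>
      ((w i).re * (w j).re + (w i).im * (w j).im) *
        (b.psi ((S a)^[q * i] p) * b.psi ((S a)^[q * j] p)) := fun i j =>
    continuous_const.mul ((psi_it_cont a b _).mul (psi_it_cont a b _))
  rw [integral_finsetSum _ fun i _ => integrable_finsetSum _ fun j _ => integrable_cont (hc i j)]
  have h1 : ∀ i ∈ Finset.range n, ∫ p : T2, ∑ j ∈ Finset.range n,
      ((w i).re * (w j).re + (w i).im * (w j).im) *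
        (b.psi ((S a)^[q * i] p) * b.psi ((S a)^[q * j] p)) ≤
      ∑ j ∈ Finset.range n, (‖w i‖ ^ 2 / 2 * |cc a q b i j| + ‖w j‖ ^ 2 / 2 * |cc a q b i j|) := by
    intro i _
    rw [integral_finsetSum _ fun j _ => integrable_cont (hc i j)]
    refine Finset.sum_le_sum fun j _ => ?_
    rw [integral_const_mul]
    refine (le_abs_self _).trans ?_
    rw [abs_mul]
    have := mul_le_mul_of_nonneg_right (coef_le' (w i) (w j)) (abs_nonneg (cc a q b i j))
    refine this.trans (le_of_eq ?_)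
    ring
  refine (Finset.sum_le_sum h1).trans ?_
  have hrow : ∀ i ∈ Finset.range n, ∑ j ∈ Finset.range n, |cc a q b i j| ≤ 5 + n * E := by
    intro i hi
    have h2 : ∀ j ∈ Finset.range n, |cc a q b i j| ≤
        (if ¬ (i + 3 ≤ j ∨ j + 3 ≤ i) then 1 else 0) + E := by
      intro j hj
      by_cases hij : i + 3 ≤ j ∨ j + 3 ≤ i
      · rw [if_neg (not_not.2 hij), zero_add]
        exact hE i j (Finset.mem_range.1 hi) (Finset.mem_range.1 hj) hij
      · rw [if_pos hij]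
        have := cc_abs a q b i j
        linarith
    refine (Finset.sum_le_sum h2).trans ?_
    rw [Finset.sum_add_distrib, Finset.sum_const, Finset.card_range, nsmul_eq_mul,
      ← Finset.sum_filter]
    rw [Finset.sum_const, nsmul_eq_mul, mul_one]
    have : (((Finset.range n).filter fun j => ¬ (i + 3 ≤ j ∨ j + 3 ≤ i)).card : ℝ) ≤ 5 := by
      exact_mod_cast near_card i n
    linarith
  have hA : ∑ i ∈ Finset.range n, ∑ j ∈ Finset.range n, ‖w i‖ ^ 2 / 2 * |cc a q b i j| ≤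
      ∑ i ∈ Finset.range n, ‖w i‖ ^ 2 / 2 * (5 + n * E) := by
    refine Finset.sum_le_sum fun i hi => ?_
    rw [← Finset.mul_sum]
    exact mul_le_mul_of_nonneg_left (hrow i hi) (by positivity)
  have hB : ∑ i ∈ Finset.range n, ∑ j ∈ Finset.range n, ‖w j‖ ^ 2 / 2 * |cc a q b i j| ≤
      ∑ i ∈ Finset.range n, ‖w i‖ ^ 2 / 2 * (5 + n * E) := by
    rw [Finset.sum_comm]
    refine Finset.sum_le_sum fun i hi => ?_
    rw [← Finset.mul_sum]
    refine mul_le_mul_of_nonneg_left ?_ (by positivity)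
    refine le_trans (le_of_eq ?_) (hrow i hi)
    exact Finset.sum_congr rfl fun j _ => by rw [cc_symm]
  have hs : ∑ i ∈ Finset.range n, ∑ j ∈ Finset.range n,
      (‖w i‖ ^ 2 / 2 * |cc a q b i j| + ‖w j‖ ^ 2 / 2 * |cc a q b i j|) =
      (∑ i ∈ Finset.range n, ∑ j ∈ Finset.range n, ‖w i‖ ^ 2 / 2 * |cc a q b i j|) +
      ∑ i ∈ Finset.range n, ∑ j ∈ Finset.range n, ‖w j‖ ^ 2 / 2 * |cc a q b i j| := by
    rw [← Finset.sum_add_distrib]
    exact Finset.sum_congr rfl fun i _ => Finset.sum_add_distrib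
  rw [hs]
  have hf : (5 + n * E) * ∑ j ∈ Finset.range n, ‖w j‖ ^ 2 =
      (∑ i ∈ Finset.range n, ‖w i‖ ^ 2 / 2 * (5 + n * E)) +
      ∑ i ∈ Finset.range n, ‖w i‖ ^ 2 / 2 * (5 + n * E) := by
    rw [← Finset.sum_add_distrib, Finset.mul_sum]
    exact Finset.sum_congr rfl fun i _ => by ring
  rw [hf]
  exact add_le_add hA hB

/-- the constant -/
noncomputable def C3 : ℝ := 4 * C0 + 22 + l0

theorem C3_pos : 0 < C3 := by
  unfold C3
  have := C0_pos
  have := l0_ge
  linarith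

/-- mean square with arbitrary weights, up to the time `nn a q` -/
theorem mean_sq_all {a : ℝ} (ha : 1 ≤ |a|) {q : ℕ} (hq : 1 ≤ q) (b : Bx) {n : ℕ} (hn : n ≤ nn a q)
    (w : ℕ → ℂ) :
    ∫ p : T2, ‖∑ j ∈ Finset.range n, w j * (b.psi ((S a)^[q * j] p) : ℂ)‖ ^ 2 ≤
      C3 * ∑ j ∈ Finset.range n, ‖w j‖ ^ 2 := by
  have hτ := tau_pos ha hq
  have hc := tau_cube ha hq
  have hle := tau_le ha hq
  have hnr : (n : ℝ) ≤ nn a q := by exact_mod_cast hn
  have hn1 : (nn a q : ℝ) < tau a q + 1 := Nat.ceil_lt_add_one hτ.le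
  have hC := C0_pos
  have hl16 := l0_ge
  have hS0 : 0 ≤ ∑ j ∈ Finset.range n, ‖w j‖ ^ 2 := Finset.sum_nonneg fun _ _ => by positivity
  have hq0 : (0:ℝ) < q := by exact_mod_cast hq
  have ha0 : 0 < |a| := by linarith
  rcases lt_or_ge (tau a q) l0 with h | h
  · have h1 : ∫ p : T2, ‖∑ j ∈ Finset.range n, w j * (b.psi ((S a)^[q * j] p) : ℂ)‖ ^ 2 ≤
        ∫ _ : T2, (n : ℝ) * ∑ j ∈ Finset.range n, ‖w j‖ ^ 2 := by
      apply integral_mono_of_nonneg
      · exact Filter.Eventually.of_forall fun p => by positivity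
      · exact integrable_const _
      · refine Filter.Eventually.of_forall fun p => ?_
        have h2 : ‖∑ j ∈ Finset.range n, w j * (b.psi ((S a)^[q * j] p) : ℂ)‖ ≤
            ∑ j ∈ Finset.range n, ‖w j‖ := by
          refine (norm_sum_le _ _).trans (Finset.sum_le_sum fun j _ => ?_)
          rw [norm_mul, Complex.norm_real, norm_eq_abs]
          have := mul_le_mul_of_nonneg_left (psi_abs b ((S a)^[q * j] p)) (norm_nonneg (w j))
          linarith
        show _ ^ 2 ≤ _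
        refine (pow_le_pow_left₀ (norm_nonneg _) h2 2).trans ?_
        have h3 := sq_sum_le_card_mul_sum_sq (s := Finset.range n) (f := fun j => ‖w j‖)
        rw [Finset.card_range] at h3
        exact h3
    refine h1.trans ?_
    rw [integral_const, measureReal_def, measure_univ, ENNReal.toReal_one, one_smul]
    apply mul_le_mul_of_nonneg_right _ hS0
    unfold C3
    linarith
  · have hn2 : (n : ℝ) ≤ 2 * tau a q := by linarith
    have hE0 : 0 ≤ 2 * (C0 / tau a q + 2 * (q * n) * (tau a q / |a|)) := by positivity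
    refine (mean_sq_w b n hE0 (fun i j hi hj hij => cc_far h hle hq b hi hj hij) w).trans ?_
    apply mul_le_mul_of_nonneg_right _ hS0
    have e1 : (n : ℝ) * (C0 / tau a q) ≤ 2 * C0 := by
      rw [mul_div_assoc', div_le_iff₀ hτ]
      nlinarith
    have e2 : (n : ℝ) * (2 * (q * n) * (tau a q / |a|)) ≤ 8 := by
      rw [mul_div_assoc', mul_div_assoc', div_le_iff₀ ha0]
      calc (n : ℝ) * (2 * (q * n) * tau a q) ≤ (2 * tau a q) * (2 * (q * (2 * tau a q)) * tau a q) := by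
            gcongr
        _ = 8 * (q * tau a q ^ 3) := by ring
        _ = 8 * |a| := by rw [hc]
    unfold C3
    linarith

/-- Bessel's inequality for smoothed boxes -/
theorem bessel_psi {a : ℝ} (ha : 1 ≤ |a|) {q : ℕ} (hq : 1 ≤ q) (b : Bx) {n : ℕ} (hn : n ≤ nn a q)
    (m : ℕ) {f : T2 → ℂ} (hf : MemLp f 2 volume) :
    ∑ j ∈ Finset.range n, ‖∫ p, f p * (b.psi ((S a)^[q * (m + j)] p) : ℂ)‖ ^ 2 ≤
      C3 * ∫ p, ‖f p‖ ^ 2 := by
  set β : ℕ → ℂ := fun j => ∫ p, f p * (b.psi ((S a)^[q * (m + j)] p) : ℂ) with hβ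
  set Q : ℝ := ∑ j ∈ Finset.range n, ‖β j‖ ^ 2 with hQ
  have hQ0 : 0 ≤ Q := Finset.sum_nonneg fun _ _ => by positivity
  set G : T2 → ℂ := fun p => ∑ j ∈ Finset.range n,
    (starRingEnd ℂ) (β j) * (b.psi ((S a)^[q * (m + j)] p) : ℂ) with hG
  have hGc : Continuous G := by
    apply continuous_finsetSum
    intro j _
    exact continuous_const.mul (Complex.continuous_ofReal.comp (psi_it_cont a b _))
  have hGb : ∀ p, ‖G p‖ ≤ ∑ j ∈ Finset.range n, ‖β j‖ := by
    intro p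
    refine (norm_sum_le _ _).trans (Finset.sum_le_sum fun j _ => ?_)
    rw [norm_mul, RCLike.norm_conj, Complex.norm_real, norm_eq_abs]
    have := mul_le_mul_of_nonneg_left (psi_abs b ((S a)^[q * (m + j)] p)) (norm_nonneg (β j))
    linarith
  have hfi : Integrable f := hf.integrable (by norm_num)
  have hterm : ∀ j : ℕ, Integrable fun p : T2 =>
      f p * ((starRingEnd ℂ) (β j) * (b.psi ((S a)^[q * (m + j)] p) : ℂ)) := by
    intro j
    apply hfi.mul_bdd (c := ‖β j‖)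
    · exact (continuous_const.mul (Complex.continuous_ofReal.comp (psi_it_cont a b _))).aestronglyMeasurable
    · refine Eventually.of_forall fun p => ?_
      rw [norm_mul, RCLike.norm_conj, Complex.norm_real, norm_eq_abs]
      have := mul_le_mul_of_nonneg_left (psi_abs b ((S a)^[q * (m + j)] p)) (norm_nonneg (β j))
      linarith
  have hsum : ∫ p, f p * G p = (Q : ℂ) := by
    have h1 : ∀ p, f p * G p = ∑ j ∈ Finset.range n,
        f p * ((starRingEnd ℂ) (β j) * (b.psi ((S a)^[q * (m + j)] p) : ℂ)) := by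
      intro p
      rw [hG, Finset.mul_sum]
    simp_rw [h1]
    rw [integral_finsetSum _ fun j _ => hterm j, hQ]
    push_cast
    apply Finset.sum_congr rfl
    intro j _
    have h2 : ∀ p, f p * ((starRingEnd ℂ) (β j) * (b.psi ((S a)^[q * (m + j)] p) : ℂ)) =
        (starRingEnd ℂ) (β j) * (f p * (b.psi ((S a)^[q * (m + j)] p) : ℂ)) := by
      intro p; ring
    simp_rw [h2]
    rw [integral_const_mul]
    show (starRingEnd ℂ) (β j) * β j = _
    rw [mul_comm, Complex.mul_conj, Complex.normSq_eq_norm_sq]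
    push_cast
    rfl
  have hG2 : ∫ p, ‖G p‖ ^ 2 ≤ C3 * Q := by
    have h1 := mean_sq_all ha hq b hn (fun j => (starRingEnd ℂ) (β j))
    have h2 : ∑ j ∈ Finset.range n, ‖(starRingEnd ℂ) (β j)‖ ^ 2 = Q := by
      simp only [RCLike.norm_conj, hQ]
    rw [h2] at h1
    refine le_trans (le_of_eq ?_) h1
    have hF : Continuous fun p : T2 => ‖∑ j ∈ Finset.range n,
        (starRingEnd ℂ) (β j) * (b.psi ((S a)^[q * j] p) : ℂ)‖ ^ 2 := by
      apply Continuous.pow
      apply Continuous.norm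
      apply continuous_finsetSum
      intro j _
      exact continuous_const.mul (Complex.continuous_ofReal.comp (psi_it_cont a b _))
    rw [← int_comp a (q * m) hF]
    apply integral_congr_ae
    refine Eventually.of_forall fun p => ?_
    show ‖G p‖ ^ 2 = _
    rw [hG]
    simp only
    congr 2
    apply Finset.sum_congr rfl
    intro j _
    rw [← iterate_add_apply]
    congr 4
    ring
  have h3 := cs hf (memLp_bdd hGc.measurable hGb)
  rw [hsum, Complex.norm_real, norm_eq_abs, abs_of_nonneg hQ0] at h3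
  have hF0 : 0 ≤ ∫ p, ‖f p‖ ^ 2 := integral_nonneg fun p => by positivity
  have h4 : Q ^ 2 ≤ (∫ p, ‖f p‖ ^ 2) * (C3 * Q) := by
    have h5 : Q ^ 2 ≤ (√(∫ p, ‖f p‖ ^ 2) * √(∫ p, ‖G p‖ ^ 2)) ^ 2 := pow_le_pow_left₀ hQ0 h3 2
    rw [mul_pow, sq_sqrt hF0, sq_sqrt (integral_nonneg fun p => by positivity)] at h5
    exact h5.trans (mul_le_mul_of_nonneg_left hG2 hF0)
  rcases hQ0.eq_or_lt with h | h
  · rw [← h]
    exact mul_nonneg C3_pos.le hF0
  · have : Q * Q ≤ (C3 * ∫ p, ‖f p‖ ^ 2) * Q := by nlinarith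
    exact le_of_mul_le_mul_right this h

/-- approximation of the correlation with a box by correlations with smoothed boxes -/
theorem approx_corr (a : ℝ) {s t : ℝ}
    (hs0 : 0 ≤ s) (hs1 : s ≤ 1) (ht0 : 0 ≤ t) (ht1 : t ≤ 1)
    {g : T2 → ℂ} (hg : MemLp g 2 volume) (hg0 : ∫ p, g p = 0) {η : ℝ} (hη : 0 < η) :
    ∃ b : Bx, ∀ k : ℕ, ‖(∫ p in (S a)^[k] ⁻¹' Box s t, g p) -
      ∫ p, g p * (b.psi ((S a)^[k] p) : ℂ)‖ ≤ √(∫ p, ‖g p‖ ^ 2) * η := by
  obtain ⟨b, h1, h2⟩ := box_upper hs0 hs1 ht0 ht1 (δ := η ^ 2 / 4) (by positivity)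
  obtain ⟨g1, -⟩ := gap hs0 hs1 ht0 ht1 b h1 h2
  refine ⟨b, fun k => ?_⟩
  have hgi : Integrable g := hg.integrable (by norm_num)
  have hmp := iter_mp a k
  have hBk : MeasurableSet ((S a)^[k] ⁻¹' Box s t) := hmp.measurable (Box_meas hs1 ht1)
  have hps : Measurable fun p : T2 => ((b.psi ((S a)^[k] p) : ℝ) : ℂ) :=
    Complex.measurable_ofReal.comp (psi_it_cont a b k).measurable
  have hd0 : Measurable fun p : T2 => ib s t p - b.phi p :=
    (ib_measurable hs1 ht1).sub (phi_cont b).measurable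
  have hdf : Measurable fun p : T2 => ((ib s t ((S a)^[k] p) - b.phi ((S a)^[k] p) : ℝ) : ℂ) :=
    Complex.measurable_ofReal.comp (hd0.comp hmp.measurable)
  have hdb0 : ∀ p : T2, |ib s t p - b.phi p| ≤ 1 := by
    intro p
    rw [abs_le]
    have := phi_mem b p
    have := ib_mem s t p
    constructor <;> linarith
  have hdb : ∀ p : T2, ‖((ib s t ((S a)^[k] p) - b.phi ((S a)^[k] p) : ℝ) : ℂ)‖ ≤ 1 := by
    intro p
    rw [Complex.norm_real, norm_eq_abs]
    exact hdb0 _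
  have i1 : Integrable fun p : T2 => g p * ((b.psi ((S a)^[k] p) : ℝ) : ℂ) :=
    hgi.mul_bdd (c := 1) hps.aestronglyMeasurable (Eventually.of_forall fun p => by
      rw [Complex.norm_real]; exact psi_abs b _)
  have i2 : Integrable fun p : T2 => g p * ((ib s t ((S a)^[k] p) - b.phi ((S a)^[k] p) : ℝ) : ℂ) :=
    hgi.mul_bdd (c := 1) hdf.aestronglyMeasurable (Eventually.of_forall hdb)
  have i3 : Integrable fun p : T2 => (b.M : ℂ) * g p := hgi.const_mul _
  have e1 : (∫ p in (S a)^[k] ⁻¹' Box s t, g p) - ∫ p, g p * (b.psi ((S a)^[k] p) : ℂ) =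
      ∫ p, g p * ((ib s t ((S a)^[k] p) - b.phi ((S a)^[k] p) : ℝ) : ℂ) := by
    have e2 : (∫ p in (S a)^[k] ⁻¹' Box s t, g p) =
        (∫ p, g p * ((b.psi ((S a)^[k] p) : ℝ) : ℂ)) +
        (∫ p, g p * ((ib s t ((S a)^[k] p) - b.phi ((S a)^[k] p) : ℝ) : ℂ)) +
        ∫ p, (b.M : ℂ) * g p := by
      have i12 : Integrable fun p : T2 => g p * ((b.psi ((S a)^[k] p) : ℝ) : ℂ) +
          g p * ((ib s t ((S a)^[k] p) - b.phi ((S a)^[k] p) : ℝ) : ℂ) := i1.add i2
      rw [← integral_add i1 i2, ← integral_add i12 i3, ← integral_indicator hBk]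
      apply integral_congr_ae
      refine Eventually.of_forall fun p => ?_
      show ((S a)^[k] ⁻¹' Box s t).indicator g p = _
      have e3 : ((S a)^[k] ⁻¹' Box s t).indicator g p = g p * ((ib s t ((S a)^[k] p) : ℝ) : ℂ) := by
        unfold ib
        by_cases h : (S a)^[k] p ∈ Box s t
        · have h' : p ∈ (S a)^[k] ⁻¹' Box s t := h
          rw [indicator_of_mem h, indicator_of_mem h']; simp
        · have h' : p ∉ (S a)^[k] ⁻¹' Box s t := h
          rw [indicator_of_notMem h, indicator_of_notMem h']; simp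
      rw [e3]
      unfold Bx.psi
      push_cast
      ring
    rw [e2, integral_const_mul, hg0]
    ring
  rw [e1]
  refine (cs hg (memLp_bdd hdf hdb)).trans ?_
  apply mul_le_mul_of_nonneg_left _ (sqrt_nonneg _)
  have h3 : ∫ p, ‖((ib s t ((S a)^[k] p) - b.phi ((S a)^[k] p) : ℝ) : ℂ)‖ ^ 2 ≤ η ^ 2 := by
    have h4 : ∫ p, ‖((ib s t ((S a)^[k] p) - b.phi ((S a)^[k] p) : ℝ) : ℂ)‖ ^ 2 =
        ∫ p, |ib s t p - b.phi p| ^ 2 := by
      have h5 := integral_map (μ := (volume : Measure T2)) (φ := (S a)^[k])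
        hmp.measurable.aemeasurable (f := fun p => |ib s t p - b.phi p| ^ 2)
        ((hd0.abs.pow_const 2).aestronglyMeasurable)
      rw [hmp.map_eq] at h5
      rw [h5]
      apply integral_congr_ae
      refine Eventually.of_forall fun p => ?_
      show ‖((ib s t ((S a)^[k] p) - b.phi ((S a)^[k] p) : ℝ) : ℂ)‖ ^ 2 = _
      rw [Complex.norm_real, norm_eq_abs]
    rw [h4]
    have h6 : ∫ p, |ib s t p - b.phi p| ^ 2 ≤ ∫ p, |b.phi p - ib s t p| := by
      apply integral_mono_of_nonneg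
      · exact Eventually.of_forall fun p => by positivity
      · exact ((integrable_cont (phi_cont b)).sub (ib_int hs1 ht1)).abs
      · refine Eventually.of_forall fun p => ?_
        have h7 := hdb0 p
        have h8 := abs_nonneg (ib s t p - b.phi p)
        show |ib s t p - b.phi p| ^ 2 ≤ |b.phi p - ib s t p|
        rw [abs_sub_comm (b.phi p)]
        nlinarith
    refine h6.trans (g1.trans (le_of_eq ?_))
    ring
  calc √(∫ p, ‖((ib s t ((S a)^[k] p) - b.phi ((S a)^[k] p) : ℝ) : ℂ)‖ ^ 2) ≤ √(η ^ 2) :=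
        sqrt_le_sqrt h3
    _ = η := sqrt_sq hη.le

/-- **Bessel's inequality for the correlations of a box with an arbitrary function** -/
theorem bessel_box {a : ℝ} (ha : 1 ≤ |a|) {q : ℕ} (hq : 1 ≤ q) {n : ℕ} (hn : n ≤ nn a q) (m : ℕ)
    {f : T2 → ℂ} (hf : MemLp f 2 volume) {s t : ℝ}
    (hs0 : 0 ≤ s) (hs1 : s ≤ 1) (ht0 : 0 ≤ t) (ht1 : t ≤ 1) :
    ∑ j ∈ Finset.range n, ‖(∫ p in (S a)^[q * (m + j)] ⁻¹' Box s t, f p) -
        ((s * t : ℝ) : ℂ) * ∫ p, f p‖ ^ 2 ≤ C3 * ∫ p, ‖f p - ∫ p', f p'‖ ^ 2 := by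
  set c := ∫ p, f p with hc
  have hfi : Integrable f := hf.integrable (by norm_num)
  set g : T2 → ℂ := fun p => f p - c with hgdef
  have hg : MemLp g 2 volume := hf.sub (memLp_const c)
  have hg0 : ∫ p, g p = 0 := by
    rw [hgdef, integral_sub hfi (integrable_const c), integral_const, ← hc]
    simp
  have hD : ∀ k : ℕ, (∫ p in (S a)^[k] ⁻¹' Box s t, f p) - ((s * t : ℝ) : ℂ) * c =
      ∫ p in (S a)^[k] ⁻¹' Box s t, g p := by
    intro k
    rw [hgdef, integral_sub hfi.integrableOn (integrable_const c).integrableOn, setIntegral_const,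
      measureReal_def, (iter_mp a k).measure_preimage (Box_meas hs1 ht1).nullMeasurableSet,
      vol_Box hs0 hs1 ht0 ht1]
    simp
  simp_rw [hD]
  have hb : ∀ i : ℕ, ∃ b : Bx, ∀ k : ℕ, ‖(∫ p in (S a)^[k] ⁻¹' Box s t, g p) -
      ∫ p, g p * (b.psi ((S a)^[k] p) : ℂ)‖ ≤ √(∫ p, ‖g p‖ ^ 2) * (1 / ((i : ℝ) + 1)) := fun i =>
    approx_corr a hs0 hs1 ht0 ht1 hg hg0 (by positivity)
  choose b hb using hb
  have hlim : ∀ k : ℕ, Tendsto (fun i : ℕ => ∫ p, g p * ((b i).psi ((S a)^[k] p) : ℂ)) atTop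
      (nhds (∫ p in (S a)^[k] ⁻¹' Box s t, g p)) := by
    intro k
    rw [tendsto_iff_norm_sub_tendsto_zero]
    have h1 : Tendsto (fun i : ℕ => √(∫ p, ‖g p‖ ^ 2) * (1 / ((i : ℝ) + 1))) atTop (nhds 0) := by
      have := (tendsto_one_div_add_atTop_nhds_zero_nat (𝕜 := ℝ)).const_mul (√(∫ p, ‖g p‖ ^ 2))
      rwa [mul_zero] at this
    refine squeeze_zero (fun i => norm_nonneg _) (fun i => ?_) h1
    rw [norm_sub_rev]
    exact hb i k
  have hlim2 : Tendsto (fun i : ℕ => ∑ j ∈ Finset.range n,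
      ‖∫ p, g p * ((b i).psi ((S a)^[q * (m + j)] p) : ℂ)‖ ^ 2) atTop
      (nhds (∑ j ∈ Finset.range n, ‖∫ p in (S a)^[q * (m + j)] ⁻¹' Box s t, g p‖ ^ 2)) := by
    apply tendsto_finsetSum
    intro j _
    exact ((hlim _).norm).pow 2
  exact le_of_tendsto' hlim2 fun i => bessel_psi ha hq (b i) hn m hg

end Run7.h608.SM
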