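import Mathlib
import Pool.Agent.Run7.h608.SM.Bes
import Pool.Agent.R243.Erg.Max

set_option autoImplicit false

/-!
# Discrepancy of the orbits, at all times
-/

namespace Run7.h608.SM

open Real MeasureTheory Set Function Filter
open Pool.Agent.TH705.SM (T2 S KK l0 integrable_cont S_cont S_mp iter_mp l0_ge KK_one)
open scoped ENNReal

theorem shift_sum (x : ℕ → ℝ) (hx : ∀ i, |x i| ≤ 1) (n j : ℕ) :
    |(∑ i ∈ Finset.range n, x (i + j)) - ∑ i ∈ Finset.range n, x i| ≤ 2 * j := by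
  induction j with
  | zero => simp
  | succ j ih =>
    have h1 : (∑ i ∈ Finset.range n, x (i + (j + 1))) - ∑ i ∈ Finset.range n, x (i + j) =
        x (n + j) - x j := by
      rw [← Finset.sum_sub_distrib]
      have := Finset.sum_range_sub (fun i => x (i + j)) n
      simp only [zero_add] at this
      rw [← this]
      apply Finset.sum_congr rfl
      intro i _
      have e : i + (j + 1) = i + 1 + j := by ring
      rw [e]
    have h2 : (∑ i ∈ Finset.range n, x (i + (j + 1))) - ∑ i ∈ Finset.range n, x i =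
        (x (n + j) - x j) + ((∑ i ∈ Finset.range n, x (i + j)) - ∑ i ∈ Finset.range n, x i) := by
      rw [← h1]; ring
    rw [h2]
    refine (abs_add_le _ _).trans ?_
    have h3 : |x (n + j) - x j| ≤ 2 := by
      have k1 := abs_le.1 (hx (n + j))
      have k2 := abs_le.1 (hx j)
      rw [abs_le]
      constructor <;> linarith [k1.1, k1.2, k2.1, k2.2]
    push_cast
    linarith

/-- the average of length `R` -/
noncomputable def avg (a : ℝ) (q R : ℕ) (b : Bx) (p : T2) : ℝ :=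
  (R : ℝ)⁻¹ * ∑ j ∈ Finset.range R, b.psi ((S a)^[q * j] p)

theorem avg_cont (a : ℝ) (q R : ℕ) (b : Bx) : Continuous (avg a q R b) := by
  unfold avg
  exact continuous_const.mul (continuous_finsetSum _ fun j _ => psi_it_cont a b _)

theorem avg_sq {a : ℝ} (ha : 1 ≤ |a|) {q : ℕ} (hq : 1 ≤ q) {R : ℕ} (hR1 : 1 ≤ R)
    (hR : R ≤ nn a q) (b : Bx) :
    ∫ p, avg a q R b p ^ 2 ≤ C3 / R := by
  have hn0 : (0:ℝ) < R := by exact_mod_cast hR1
  have h := mean_sq_all ha hq b hR (fun _ => 1)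
  have e : ∀ p : T2, ‖∑ j ∈ Finset.range R, (1:ℂ) * (b.psi ((S a)^[q * j] p) : ℂ)‖ ^ 2 =
      (R : ℝ) ^ 2 * avg a q R b p ^ 2 := by
    intro p
    have h1 : ∑ j ∈ Finset.range R, (1:ℂ) * (b.psi ((S a)^[q * j] p) : ℂ) =
        ((∑ j ∈ Finset.range R, b.psi ((S a)^[q * j] p) : ℝ) : ℂ) := by
      push_cast
      apply Finset.sum_congr rfl
      intro j _
      rw [one_mul]
    rw [h1, Complex.norm_real, norm_eq_abs, sq_abs]
    unfold avg
    field_simp
  simp_rw [e] at h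
  rw [integral_const_mul] at h
  have h2 : C3 * ∑ _j ∈ Finset.range R, ‖(1:ℂ)‖ ^ 2 = (R : ℝ) ^ 2 * (C3 / R) := by
    rw [Finset.sum_const, Finset.card_range, nsmul_eq_mul, norm_one]
    field_simp
  rw [h2] at h
  exact le_of_mul_le_mul_left h (by positivity)

/-- the exceptional set -/
def Exc (a : ℝ) (q R : ℕ) (b : Bx) (ε : ℝ) : Set T2 :=
  {p | ∃ k : ℕ, ε ^ 2 * k < ∑ i ∈ Finset.range k, avg a q R b (((S a)^[q])^[i] p) ^ 2}

theorem vol_Exc {a : ℝ} (ha : 1 ≤ |a|) {q : ℕ} (hq : 1 ≤ q) {R : ℕ} (hR1 : 1 ≤ R)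
    (hR : R ≤ nn a q) (b : Bx) {ε : ℝ} (hε : 0 < ε) :
    volume (Exc a q R b ε) ≤ ENNReal.ofReal (C3 / (R * ε ^ 2)) := by
  have hc : Continuous fun p : T2 => avg a q R b p ^ 2 := (avg_cont a q R b).pow 2
  have h := Pool.Agent.R243.Erg.max_ineq (iter_mp a q) (h := fun p : T2 => avg a q R b p ^ 2)
    hc.measurable (integrable_cont hc) (fun p => sq_nonneg _) (ε := ε ^ 2) (by positivity)
  refine h.trans (ENNReal.ofReal_le_ofReal ?_)
  have h1 := avg_sq ha hq hR1 hR b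
  have hR0 : (0:ℝ) < R := by exact_mod_cast hR1
  calc (∫ p, avg a q R b p ^ 2) / ε ^ 2 ≤ (C3 / R) / ε ^ 2 := by gcongr
    _ = C3 / (R * ε ^ 2) := by rw [div_div]

theorem good_sum {a : ℝ} {q R : ℕ} (hR1 : 1 ≤ R) (b : Bx) {ε : ℝ} (hε : 0 < ε) {p : T2}
    (hp : p ∉ Exc a q R b ε) (n : ℕ) :
    |∑ i ∈ Finset.range n, b.psi ((S a)^[q * i] p)| ≤ ε * n + 2 * R := by
  have hn0 : (0:ℝ) < R := by exact_mod_cast hR1
  have h1 : ∑ i ∈ Finset.range n, avg a q R b (((S a)^[q])^[i] p) ^ 2 ≤ ε ^ 2 * n := by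
    by_contra hcon
    push Not at hcon
    exact hp ⟨n, hcon⟩
  have h2 : |∑ i ∈ Finset.range n, avg a q R b (((S a)^[q])^[i] p)| ≤ ε * n := by
    apply abs_le_of_sq_le_sq _ (by positivity)
    have h3 := sq_sum_le_card_mul_sum_sq (s := Finset.range n)
      (f := fun i => avg a q R b (((S a)^[q])^[i] p))
    rw [Finset.card_range] at h3
    have h4 := mul_le_mul_of_nonneg_left h1 (Nat.cast_nonneg (α := ℝ) n)
    calc (∑ i ∈ Finset.range n, avg a q R b (((S a)^[q])^[i] p)) ^ 2 ≤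
          n * ∑ i ∈ Finset.range n, avg a q R b (((S a)^[q])^[i] p) ^ 2 := h3
      _ ≤ n * (ε ^ 2 * n) := h4
      _ = (ε * n) ^ 2 := by ring
  set x : ℕ → ℝ := fun i => b.psi ((S a)^[q * i] p) with hx
  have hx1 : ∀ i, |x i| ≤ 1 := fun i => psi_abs b _
  have h5 : ∑ i ∈ Finset.range n, avg a q R b (((S a)^[q])^[i] p) =
      (R : ℝ)⁻¹ * ∑ j ∈ Finset.range R, ∑ i ∈ Finset.range n, x (i + j) := by
    unfold avg
    rw [← Finset.mul_sum, Finset.sum_comm]
    congr 1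
    apply Finset.sum_congr rfl
    intro j _
    apply Finset.sum_congr rfl
    intro i _
    rw [hx, ← iterate_mul]
    simp only
    rw [← iterate_add_apply]
    congr 2
    ring
  have h6 : |(∑ i ∈ Finset.range n, avg a q R b (((S a)^[q])^[i] p)) - ∑ i ∈ Finset.range n, x i| ≤
      2 * R := by
    have e : (∑ i ∈ Finset.range n, avg a q R b (((S a)^[q])^[i] p)) - ∑ i ∈ Finset.range n, x i =
        (R : ℝ)⁻¹ * ∑ j ∈ Finset.range R,
          ((∑ i ∈ Finset.range n, x (i + j)) - ∑ i ∈ Finset.range n, x i) := by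
      rw [h5, Finset.sum_sub_distrib, Finset.sum_const, Finset.card_range, nsmul_eq_mul, mul_sub,
        inv_mul_cancel_left₀ hn0.ne']
    rw [e, abs_mul, abs_of_pos (inv_pos.2 hn0), inv_mul_le_iff₀ hn0]
    refine (Finset.abs_sum_le_sum_abs _ _).trans ?_
    have h7 : ∀ j ∈ Finset.range R,
        |(∑ i ∈ Finset.range n, x (i + j)) - ∑ i ∈ Finset.range n, x i| ≤ 2 * R := by
      intro j hj
      refine (shift_sum x hx1 n j).trans ?_
      have : (j:ℝ) ≤ R := by exact_mod_cast (Finset.mem_range.1 hj).le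
      linarith
    refine (Finset.sum_le_sum h7).trans (le_of_eq ?_)
    rw [Finset.sum_const, Finset.card_range, nsmul_eq_mul]
  rw [abs_le] at h2 h6 ⊢
  constructor <;> linarith [h2.1, h2.2, h6.1, h6.2]

/-- the number of visits to the box -/
noncomputable def visits (a : ℝ) (q : ℕ) (s t : ℝ) (n : ℕ) (p : T2) : ℝ :=
  ∑ k ∈ Finset.range n, ib s t ((S a)^[q * k] p)

theorem ib_mono {s s' t t' : ℝ} (h : s ≤ s') (h' : t ≤ t') (p : T2) : ib s t p ≤ ib s' t' p := by
  unfold ib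
  by_cases hp : p ∈ Box s t
  · have hp' : p ∈ Box s' t' := by
      obtain ⟨x, hx, y, hy, e⟩ := hp
      exact ⟨x, ⟨hx.1, hx.2.trans_le h⟩, y, ⟨hy.1, hy.2.trans_le h'⟩, e⟩
    rw [indicator_of_mem hp, indicator_of_mem hp']
  · rw [indicator_of_notMem hp]
    exact (ib_mem s' t' p).1

theorem visits_le {a : ℝ} {q R : ℕ} (hR1 : 1 ≤ R) (b : Bx) {ε : ℝ} (hε : 0 < ε) {p : T2}
    (hp : p ∉ Exc a q R b ε) (n : ℕ) {s t : ℝ} (hb : ∀ p, ib s t p ≤ b.phi p) :
    visits a q s t n p ≤ n * b.M + (ε * n + 2 * R) := by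
  have h1 := (abs_le.1 (good_sum hR1 b hε hp n)).2
  have h2 : ∑ i ∈ Finset.range n, b.psi ((S a)^[q * i] p) =
      (∑ i ∈ Finset.range n, b.phi ((S a)^[q * i] p)) - n * b.M := by
    unfold Bx.psi
    rw [Finset.sum_sub_distrib, Finset.sum_const, Finset.card_range, nsmul_eq_mul]
  have h3 : visits a q s t n p ≤ ∑ i ∈ Finset.range n, b.phi ((S a)^[q * i] p) :=
    Finset.sum_le_sum fun i _ => hb _
  linarith

theorem le_visits {a : ℝ} {q R : ℕ} (hR1 : 1 ≤ R) (b : Bx) {ε : ℝ} (hε : 0 < ε) {p : T2}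
    (hp : p ∉ Exc a q R b ε) (n : ℕ) {s t : ℝ} (hb : ∀ p, b.phi p ≤ ib s t p) :
    n * b.M - (ε * n + 2 * R) ≤ visits a q s t n p := by
  have h1 := (abs_le.1 (good_sum hR1 b hε hp n)).1
  have h2 : ∑ i ∈ Finset.range n, b.psi ((S a)^[q * i] p) =
      (∑ i ∈ Finset.range n, b.phi ((S a)^[q * i] p)) - n * b.M := by
    unfold Bx.psi
    rw [Finset.sum_sub_distrib, Finset.sum_const, Finset.card_range, nsmul_eq_mul]
  have h3 : ∑ i ∈ Finset.range n, b.phi ((S a)^[q * i] p) ≤ visits a q s t n p :=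
    Finset.sum_le_sum fun i _ => hb _
  linarith

/-- the set where the discrepancy is large at some late time -/
def Dbad (a : ℝ) (q R : ℕ) (η : ℝ) : Set T2 :=
  {p | ∃ n : ℕ, 8 * R / η ≤ n ∧ ∃ s ∈ Icc (0:ℝ) 1, ∃ t ∈ Icc (0:ℝ) 1,
    η < |visits a q s t n p / n - s * t|}

theorem disc {a : ℝ} (ha : 1 ≤ |a|) {q : ℕ} (hq : 1 ≤ q) {R : ℕ} (hR1 : 1 ≤ R)
    (hR : R ≤ nn a q) {η : ℝ} (hη : 0 < η) (hη1 : η ≤ 1) :
    volume (Dbad a q R η) ≤ ENNReal.ofReal (21632 * C3 / (R * η ^ 4)) := by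
  have hR0 : (0:ℝ) < R := by exact_mod_cast hR1
  have hC3 := C3_pos
  -- the grid
  obtain ⟨N, hN⟩ : ∃ N : ℕ, N = ⌈24 / η⌉₊ := ⟨_, rfl⟩
  have hN0 : 0 < N := by rw [hN]; exact Nat.ceil_pos.2 (by positivity)
  have hNr : (0:ℝ) < N := by exact_mod_cast hN0
  have hN1 : 24 / η ≤ N := by rw [hN]; exact Nat.le_ceil _
  have hN2 : (N:ℝ) + 1 ≤ 26 / η := by
    have h1 : (N:ℝ) < 24 / η + 1 := by rw [hN]; exact Nat.ceil_lt_add_one (by positivity)
    have h2 : 2 ≤ 2 / η := by rw [le_div_iff₀ hη]; linarith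
    have h3 : 26 / η = 24 / η + 2 / η := by ring
    linarith
  have hN3 : 6 / (N:ℝ) ≤ η / 4 := by
    rw [div_le_iff₀ hη] at hN1
    rw [div_le_div_iff₀ hNr (by norm_num)]
    linarith
  have hgrid : ∀ i : ℕ, i ≤ N → 0 ≤ (i:ℝ) / N ∧ (i:ℝ) / N ≤ 1 := by
    intro i hi
    constructor
    · positivity
    · rw [div_le_one hNr]
      exact_mod_cast hi
  have hup : ∀ i j : ℕ, ∃ b : Bx, i ≤ N → j ≤ N →
      (∀ p, ib ((i:ℝ) / N) ((j:ℝ) / N) p ≤ b.phi p) ∧ b.M ≤ (i:ℝ) / N * ((j:ℝ) / N) + 4 * (1 / N) := by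
    intro i j
    by_cases hi : i ≤ N
    · by_cases hj : j ≤ N
      · obtain ⟨b, h1, h2⟩ := box_upper (hgrid i hi).1 (hgrid i hi).2 (hgrid j hj).1 (hgrid j hj).2
          (δ := 1 / N) (by positivity)
        exact ⟨b, fun _ _ => ⟨h1, h2⟩⟩
      · exact ⟨⟨_, _, _, _, tst_one, tst_one⟩, fun _ h => absurd h hj⟩
    · exact ⟨⟨_, _, _, _, tst_one, tst_one⟩, fun h => absurd h hi⟩
  have hlo : ∀ i j : ℕ, ∃ b : Bx, i ≤ N → j ≤ N →
      (∀ p, b.phi p ≤ ib ((i:ℝ) / N) ((j:ℝ) / N) p) ∧ (i:ℝ) / N * ((j:ℝ) / N) - 4 * (1 / N) ≤ b.M := by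
    intro i j
    by_cases hi : i ≤ N
    · by_cases hj : j ≤ N
      · obtain ⟨b, h1, h2⟩ := box_lower (hgrid i hi).1 (hgrid i hi).2 (hgrid j hj).1 (hgrid j hj).2
          (δ := 1 / N) (by positivity)
        exact ⟨b, fun _ _ => ⟨h1, h2⟩⟩
      · exact ⟨⟨_, _, _, _, tst_one, tst_one⟩, fun _ h => absurd h hj⟩
    · exact ⟨⟨_, _, _, _, tst_one, tst_one⟩, fun h => absurd h hi⟩
  choose bu hbu using hup
  choose bl hbl using hlo
  set ε : ℝ := η / 4 with hε
  have hε0 : 0 < ε := by positivity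
  set X : Set T2 := ⋃ i ∈ Finset.range (N + 1), ⋃ j ∈ Finset.range (N + 1),
    (Exc a q R (bu i j) ε ∪ Exc a q R (bl i j) ε) with hX
  have hvolX : volume X ≤ ENNReal.ofReal (21632 * C3 / (R * η ^ 4)) := by
    set K : ℝ := C3 / (R * ε ^ 2) with hK
    have hK0 : 0 ≤ K := by positivity
    have h1 : ∀ i j, volume (Exc a q R (bu i j) ε ∪ Exc a q R (bl i j) ε) ≤ ENNReal.ofReal (2 * K) := by
      intro i j
      refine (measure_union_le _ _).trans ?_
      have h2 := add_le_add (vol_Exc ha hq hR1 hR (bu i j) hε0) (vol_Exc ha hq hR1 hR (bl i j) hε0)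
      refine h2.trans (le_of_eq ?_)
      rw [← ENNReal.ofReal_add hK0 hK0]
      congr 1
      ring
    have hNc : ENNReal.ofReal ((N:ℝ) + 1) = ((N + 1 : ℕ) : ENNReal) := by
      rw [show ((N:ℝ) + 1) = ((N + 1 : ℕ) : ℝ) by push_cast; ring, ENNReal.ofReal_natCast]
    have h3 : volume X ≤ ENNReal.ofReal (((N:ℝ) + 1) * (((N:ℝ) + 1) * (2 * K))) := by
      refine (measure_biUnion_finset_le _ _).trans ?_
      have h4 : ∀ i ∈ Finset.range (N + 1), volume (⋃ j ∈ Finset.range (N + 1),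
          (Exc a q R (bu i j) ε ∪ Exc a q R (bl i j) ε)) ≤ ENNReal.ofReal (((N:ℝ) + 1) * (2 * K)) := by
        intro i _
        refine (measure_biUnion_finset_le _ _).trans ?_
        refine (Finset.sum_le_sum fun j _ => h1 i j).trans ?_
        rw [Finset.sum_const, Finset.card_range, nsmul_eq_mul, ← hNc,
          ← ENNReal.ofReal_mul (by positivity : (0:ℝ) ≤ (N:ℝ) + 1)]
      refine (Finset.sum_le_sum h4).trans ?_
      rw [Finset.sum_const, Finset.card_range, nsmul_eq_mul, ← hNc,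
        ← ENNReal.ofReal_mul (by positivity : (0:ℝ) ≤ (N:ℝ) + 1)]
    refine h3.trans (ENNReal.ofReal_le_ofReal ?_)
    calc ((N:ℝ) + 1) * (((N:ℝ) + 1) * (2 * K)) ≤ (26 / η) * ((26 / η) * (2 * K)) := by gcongr
      _ = 21632 * C3 / (R * η ^ 4) := by
        rw [hK, hε]
        field_simp
        ring
  refine (measure_mono ?_).trans hvolX
  rintro p ⟨n, hn, s, hs, t, ht, hbad⟩
  by_contra hpX
  have hn0 : (0:ℝ) < n := lt_of_lt_of_le (by positivity) hn
  have hterm : 2 * (R : ℝ) ≤ η / 4 * n := by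
    rw [div_le_iff₀ hη] at hn
    linarith
  have hmem : ∀ i j : ℕ, i ≤ N → j ≤ N → p ∉ Exc a q R (bu i j) ε ∧ p ∉ Exc a q R (bl i j) ε := by
    intro i j hi hj
    constructor
    · intro h
      apply hpX
      simp only [hX, mem_iUnion]
      exact ⟨i, Finset.mem_range.2 (by omega), j, Finset.mem_range.2 (by omega), Or.inl h⟩
    · intro h
      apply hpX
      simp only [hX, mem_iUnion]
      exact ⟨i, Finset.mem_range.2 (by omega), j, Finset.mem_range.2 (by omega), Or.inr h⟩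
  -- upper estimate
  have hUP : visits a q s t n p / n - s * t ≤ η := by
    set i := ⌈s * N⌉₊ with hi
    set j := ⌈t * N⌉₊ with hj
    have hiN : i ≤ N := by
      rw [hi, Nat.ceil_le]
      nlinarith [hs.2]
    have hjN : j ≤ N := by
      rw [hj, Nat.ceil_le]
      nlinarith [ht.2]
    have hsi : s ≤ i / N := by
      rw [le_div_iff₀ hNr]
      exact Nat.le_ceil _
    have htj : t ≤ j / N := by
      rw [le_div_iff₀ hNr]
      exact Nat.le_ceil _
    have hsi2 : (i:ℝ) / N ≤ s + 1 / N := by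
      rw [div_le_iff₀ hNr, add_mul, one_div_mul_cancel hNr.ne']
      exact (Nat.ceil_lt_add_one (by nlinarith [hs.1])).le
    have htj2 : (j:ℝ) / N ≤ t + 1 / N := by
      rw [div_le_iff₀ hNr, add_mul, one_div_mul_cancel hNr.ne']
      exact (Nat.ceil_lt_add_one (by nlinarith [ht.1])).le
    obtain ⟨hb1, hb2⟩ := hbu i j hiN hjN
    have h1 := visits_le hR1 (bu i j) hε0 (hmem i j hiN hjN).1 n hb1
    have h2 : visits a q s t n p ≤ visits a q ((i:ℝ) / N) ((j:ℝ) / N) n p :=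
      Finset.sum_le_sum fun k _ => ib_mono hsi htj _
    have h3 : (i:ℝ) / N * ((j:ℝ) / N) ≤ s * t + 2 * (1 / N) := by
      have k1 := (hgrid j hjN).2
      have k2 := (hgrid j hjN).1
      have k3 : 0 < 1 / (N:ℝ) := by positivity
      nlinarith [hs.1, hs.2, ht.1, ht.2]
    have h4 : (bu i j).M ≤ s * t + 6 * (1 / N) := by linarith
    have h5 : 6 * (1 / (N:ℝ)) ≤ η / 4 := by
      have : 6 * (1 / (N:ℝ)) = 6 / N := by ring
      rw [this]
      exact hN3
    rw [sub_le_iff_le_add, div_le_iff₀ hn0]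
    nlinarith
  have hLO : -η ≤ visits a q s t n p / n - s * t := by
    set i := ⌊s * N⌋₊ with hi
    set j := ⌊t * N⌋₊ with hj
    have hsN : 0 ≤ s * N := mul_nonneg hs.1 hNr.le
    have htN : 0 ≤ t * N := mul_nonneg ht.1 hNr.le
    have hsi : (i:ℝ) / N ≤ s := by
      rw [div_le_iff₀ hNr]
      exact Nat.floor_le hsN
    have htj : (j:ℝ) / N ≤ t := by
      rw [div_le_iff₀ hNr]
      exact Nat.floor_le htN
    have hiN : i ≤ N := by
      have : (i:ℝ) ≤ N := by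
        rw [div_le_iff₀ hNr] at hsi
        nlinarith [hs.2]
      exact_mod_cast this
    have hjN : j ≤ N := by
      have : (j:ℝ) ≤ N := by
        rw [div_le_iff₀ hNr] at htj
        nlinarith [ht.2]
      exact_mod_cast this
    have hsi2 : s ≤ (i:ℝ) / N + 1 / N := by
      rw [← add_div, le_div_iff₀ hNr]
      exact (Nat.lt_floor_add_one _).le
    have htj2 : t ≤ (j:ℝ) / N + 1 / N := by
      rw [← add_div, le_div_iff₀ hNr]
      exact (Nat.lt_floor_add_one _).le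
    obtain ⟨hb1, hb2⟩ := hbl i j hiN hjN
    have h1 := le_visits hR1 (bl i j) hε0 (hmem i j hiN hjN).2 n hb1
    have h2 : visits a q ((i:ℝ) / N) ((j:ℝ) / N) n p ≤ visits a q s t n p :=
      Finset.sum_le_sum fun k _ => ib_mono hsi htj _
    have h3 : s * t - 2 * (1 / N) ≤ (i:ℝ) / N * ((j:ℝ) / N) := by
      have k1 := (hgrid i hiN).2
      have k2 := (hgrid i hiN).1
      have k3 : 0 < 1 / (N:ℝ) := by positivity
      nlinarith [hs.1, hs.2, ht.1, ht.2]
    have h4 : s * t - 6 * (1 / N) ≤ (bl i j).M := by linarith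
    have h5 : 6 * (1 / (N:ℝ)) ≤ η / 4 := by
      have : 6 * (1 / (N:ℝ)) = 6 / N := by ring
      rw [this]
      exact hN3
    have h6 : (s * t - η) * n ≤ visits a q s t n p := by nlinarith
    have h7 : s * t - η ≤ visits a q s t n p / n := by
      rw [le_div_iff₀ hn0]
      exact h6
    linarith
  have : |visits a q s t n p / n - s * t| ≤ η := abs_le.2 ⟨hLO, hUP⟩
  linarith

/-- the set where the discrepancy is large at some time after `n₀` -/
def Dbad' (a : ℝ) (q n₀ : ℕ) (η : ℝ) : Set T2 :=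
  {p | ∃ n : ℕ, n₀ ≤ n ∧ ∃ s ∈ Icc (0:ℝ) 1, ∃ t ∈ Icc (0:ℝ) 1,
    η < |visits a q s t n p / n - s * t|}

theorem tau_inv (a : ℝ) (q : ℕ) : 1 / tau a q = (q / |a|) ^ ((1:ℝ) / 3) := by
  unfold tau
  rw [one_div, ← inv_rpow (by positivity), inv_div]

/-- **discrepancy at all late times** -/
theorem disc_all {a : ℝ} (ha : 1 ≤ |a|) {q : ℕ} (hq : 1 ≤ q) {n₀ : ℕ} (hn₀ : 1 ≤ n₀)
    {η : ℝ} (hη : 0 < η) (hη1 : η ≤ 1) :
    volume (Dbad' a q n₀ η) ≤
      ENNReal.ofReal (346112 * C3 / η ^ 5 * (1 / n₀ + (q / |a|) ^ ((1:ℝ) / 3))) := by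
  have hτ := tau_pos ha hq
  rw [← tau_inv]
  have hC3 : 22 ≤ C3 := by
    unfold C3
    have := C0_pos
    have := l0_ge
    linarith
  have hn0 : (1:ℝ) ≤ n₀ := by exact_mod_cast hn₀
  have h51 : η ^ 5 ≤ η := by
    have h := pow_le_one₀ (n := 4) hη.le hη1
    calc η ^ 5 = η * η ^ 4 := by ring
      _ ≤ η * 1 := by gcongr
      _ = η := mul_one _
  have h54 : η ^ 5 ≤ η ^ 4 := by
    calc η ^ 5 = η ^ 4 * η := by ring
      _ ≤ η ^ 4 * 1 := by gcongr
      _ = η ^ 4 := mul_one _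
  rcases lt_or_ge (η * n₀ / 8) 1 with hc | hc
  · refine prob_le_one.trans ?_
    rw [ENNReal.one_le_ofReal]
    have h1 : 1 ≤ 8 / (η * n₀) := by
      rw [one_le_div (by positivity)]
      linarith
    have h2 : 8 / (η * n₀) ≤ 8 / (η ^ 5 * n₀) := by
      apply div_le_div_of_nonneg_left (by norm_num) (by positivity)
      gcongr
    have h3 : 8 / (η ^ 5 * n₀) ≤ 346112 * C3 / η ^ 5 * (1 / n₀) := by
      rw [div_mul_div_comm, mul_one]
      gcongr
      linarith
    have h4 : 0 ≤ 346112 * C3 / η ^ 5 * (1 / tau a q) := by positivity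
    rw [mul_add]
    linarith
  · set M : ℕ := ⌊η * n₀ / 8⌋₊ with hM
    have hM1 : 1 ≤ M := by
      rw [hM, Nat.one_le_floor_iff]
      exact hc
    have hMle : (M:ℝ) ≤ η * n₀ / 8 := Nat.floor_le (by positivity)
    have hMge : η * n₀ / 16 ≤ M := by
      have h1 : η * n₀ / 8 < M + 1 := Nat.lt_floor_add_one _
      have h2 : (1:ℝ) ≤ M := by exact_mod_cast hM1
      linarith
    set R : ℕ := min M (nn a q) with hR
    have hR1 : 1 ≤ R := le_min hM1 (nn_pos ha hq)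
    have hRn : R ≤ nn a q := min_le_right _ _
    have hRM : (R:ℝ) ≤ M := by exact_mod_cast min_le_left _ _
    have hR0 : (0:ℝ) < R := by exact_mod_cast hR1
    have hsub : Dbad' a q n₀ η ⊆ Dbad a q R η := by
      rintro p ⟨n, hn, hrest⟩
      refine ⟨n, ?_, hrest⟩
      have hn' : (n₀:ℝ) ≤ n := by exact_mod_cast hn
      rw [div_le_iff₀ hη]
      nlinarith
    refine (measure_mono hsub).trans ((disc ha hq hR1 hRn hη hη1).trans
      (ENNReal.ofReal_le_ofReal ?_))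
    have hinv : 1 / (R:ℝ) ≤ 16 / (η * n₀) + 1 / tau a q := by
      rcases min_choice M (nn a q) with h | h
      · rw [hR, h]
        have h1 : 1 / (M:ℝ) ≤ 16 / (η * n₀) := by
          rw [div_le_div_iff₀ (by exact_mod_cast hM1) (by positivity)]
          linarith
        have h2 : 0 ≤ 1 / tau a q := by positivity
        linarith
      · rw [hR, h]
        have h1 : 1 / (nn a q:ℝ) ≤ 1 / tau a q := by
          apply one_div_le_one_div_of_le hτ
          exact Nat.le_ceil _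
        have h2 : 0 ≤ 16 / (η * n₀) := by positivity
        linarith
    have e1 : 21632 * C3 / (R * η ^ 4) = 21632 * C3 / η ^ 4 * (1 / R) := by
      field_simp
    rw [e1]
    calc 21632 * C3 / η ^ 4 * (1 / (R:ℝ)) ≤ 21632 * C3 / η ^ 4 * (16 / (η * n₀) + 1 / tau a q) := by
          gcongr
      _ = 346112 * C3 / η ^ 5 * (1 / n₀) + 21632 * C3 / η ^ 4 * (1 / tau a q) := by
          field_simp
          ring
      _ ≤ 346112 * C3 / η ^ 5 * (1 / n₀) + 346112 * C3 / η ^ 5 * (1 / tau a q) := by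
          gcongr
          norm_num
      _ = _ := by ring

end Run7.h608.SM
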