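import Mathlib
import Pool.Agent.Run7.h608.SM.Bes

set_option autoImplicit false

/-!
# The Bessel inequality for windows of any length; powers of the map along any window
-/

namespace Run7.h608.SM

open Real MeasureTheory Set Function Filter
open Pool.Agent.TH705.SM (T2 S KK l0 integrable_cont S_cont S_mp iter_mp l0_ge KK_one)

theorem sum_blocks {F : ℕ → ℝ} {K : ℝ} {N : ℕ} (h : ∀ m, ∑ j ∈ Finset.range N, F (m + j) ≤ K)
    (m B : ℕ) : ∑ j ∈ Finset.range (B * N), F (m + j) ≤ B * K := by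
  induction B with
  | zero => simp
  | succ B ih =>
    rw [Nat.succ_mul, Finset.sum_range_add]
    have h1 := h (m + B * N)
    have h2 : ∑ x ∈ Finset.range N, F (m + (B * N + x)) = ∑ j ∈ Finset.range N, F (m + B * N + j) :=
      Finset.sum_congr rfl fun x _ => by rw [add_assoc]
    rw [h2]
    push_cast
    linarith

/-- **Bessel's inequality**, windows of any length -/
theorem bessel_all {a : ℝ} (ha : 1 ≤ |a|) {q : ℕ} (hq : 1 ≤ q) (m n : ℕ)
    {f : T2 → ℂ} (hf : MemLp f 2 volume) {s t : ℝ}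
    (hs0 : 0 ≤ s) (hs1 : s ≤ 1) (ht0 : 0 ≤ t) (ht1 : t ≤ 1) :
    ∑ j ∈ Finset.range n, ‖(∫ p in (S a)^[q * (m + j)] ⁻¹' Box s t, f p) -
        ((s * t : ℝ) : ℂ) * ∫ p, f p‖ ^ 2 ≤
      C3 * (1 + n * (q / |a|) ^ ((1:ℝ) / 3)) * ∫ p, ‖f p - ∫ p', f p'‖ ^ 2 := by
  have hτ := tau_pos ha hq
  set N := nn a q with hN
  have hN0 := nn_pos ha hq
  set V : ℝ := ∫ p, ‖f p - ∫ p', f p'‖ ^ 2 with hV
  have hV0 : 0 ≤ V := integral_nonneg fun p => by positivity
  set F : ℕ → ℝ := fun k => ‖(∫ p in (S a)^[q * k] ⁻¹' Box s t, f p) -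
        ((s * t : ℝ) : ℂ) * ∫ p, f p‖ ^ 2 with hF
  have h1 : ∀ m, ∑ j ∈ Finset.range N, F (m + j) ≤ C3 * V := fun m =>
    bessel_box ha hq le_rfl m hf hs0 hs1 ht0 ht1
  have h2 := sum_blocks h1 m (n / N + 1)
  have h3 : n ≤ (n / N + 1) * N := by
    have := Nat.lt_div_mul_add (a := n) hN0
    rw [add_mul, one_mul]
    exact this.le
  have h4 : ∑ j ∈ Finset.range n, F (m + j) ≤ ∑ j ∈ Finset.range ((n / N + 1) * N), F (m + j) :=
    Finset.sum_le_sum_of_subset_of_nonneg (Finset.range_mono h3) fun j _ _ => by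
      rw [hF]; positivity
  have h5 : (((n / N + 1 : ℕ)) : ℝ) ≤ 1 + n * (q / |a|) ^ ((1:ℝ) / 3) := by
    have h6 : 1 / tau a q = (q / |a|) ^ ((1:ℝ) / 3) := by
      unfold tau
      rw [one_div, ← inv_rpow (by positivity), inv_div]
    rw [← h6]
    push_cast
    have h7 : ((n / N : ℕ) : ℝ) ≤ n / N := Nat.cast_div_le
    have h8 : (n : ℝ) / N ≤ n / tau a q :=
      div_le_div_of_nonneg_left (Nat.cast_nonneg n) hτ (Nat.le_ceil _)
    rw [mul_one_div]
    linarith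
  calc ∑ j ∈ Finset.range n, F (m + j) ≤ ((n / N + 1 : ℕ) : ℝ) * (C3 * V) := h4.trans h2
    _ ≤ (1 + n * (q / |a|) ^ ((1:ℝ) / 3)) * (C3 * V) := by
        apply mul_le_mul_of_nonneg_right h5
        exact mul_nonneg C3_pos.le hV0
    _ = _ := by ring

end Run7.h608.SM
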